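import Mathlib

/-!
# Three-ray equal-area partitions: interior point versus boundary point

We refute the assertion of the problem: for the square with side `12` there is a three-ray
equipartition from an interior point whose total perimeter is strictly larger than the total
perimeter of every two-ray equipartition from each of its three boundary points.
-/

open MeasureTheory Set
open scoped ENNReal MeasureTheory

namespace Pool.Agent.Results.MP_d05d56_co.SquareCounterexample

/-- The Euclidean plane. -/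
abbrev Plane : Type := EuclideanSpace ℝ (Fin 2)

/-- A convex region: a compact convex subset of the plane with nonempty interior. -/
def IsConvexRegion (C : Set Plane) : Prop :=
  IsCompact C ∧ Convex ℝ C ∧ (interior C).Nonempty

/-- The set `K` (the union of the cuts) cuts `C` into the three pieces `S 0`, `S 1`, `S 2`, each
of which has one third of the area of `C`: the pieces are open, connected (in particular
nonempty), pairwise disjoint, and their union is the interior of `C` minus `K` (so they are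
exactly the connected components of the interior of `C` minus the cuts), and each has area
`|C| / 3`. -/
structure CutsIntoThirds (C K : Set Plane) (S : Fin 3 → Set Plane) : Prop where
  isOpen : ∀ j, IsOpen (S j)
  isConnected : ∀ j, IsConnected (S j)
  disjoint : Pairwise (fun i j => Disjoint (S i) (S j))
  iUnion_eq : ⋃ j, S j = interior C \ K
  area : ∀ j, volume (S j) = volume C / 3

/-- A three-ray equipartition of `C` from the interior point `P`: the three rays from `P` meet the
boundary of `C` in the points `A 0`, `A 1`, `A 2`, and the three segments from `P` to these points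
cut `C` into the three pieces `S 0`, `S 1`, `S 2` of area `|C| / 3` each. -/
structure IsThreeRayEquipartition (C : Set Plane) (P : Plane) (A : Fin 3 → Plane)
    (S : Fin 3 → Set Plane) : Prop where
  source : P ∈ interior C
  boundary : ∀ i, A i ∈ frontier C
  cuts : CutsIntoThirds C (⋃ i, segment ℝ P (A i)) S

/-- A two-ray equipartition of `C` from the boundary point `X`: two rays starting at `X` and
entering `C`, which leave `C` at the boundary points `B 0`, `B 1`, such that the two chords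
from `X` to `B 0` and to `B 1` cut `C` into the three pieces `S 0`, `S 1`, `S 2` of area
`|C| / 3` each. -/
structure IsTwoRayEquipartition (C : Set Plane) (X : Plane) (B : Fin 2 → Plane)
    (S : Fin 3 → Set Plane) : Prop where
  source : X ∈ frontier C
  boundary : ∀ i, B i ∈ frontier C
  enters : ∀ i, openSegment ℝ X (B i) ⊆ interior C
  cuts : CutsIntoThirds C (⋃ i, segment ℝ X (B i)) S

/-- The perimeter of a piece: the length (one-dimensional Hausdorff measure) of its boundary. -/
noncomputable def perimeter (T : Set Plane) : ℝ≥0∞ := μH[1] (frontier T)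

/-- The total perimeter of a partition into three pieces: the sum of their perimeters. -/
noncomputable def totalPerimeter (S : Fin 3 → Set Plane) : ℝ≥0∞ := ∑ j, perimeter (S j)


/-- components lemma -/
theorem perm_of_components {α : Type*} [TopologicalSpace α] {S T : Fin 3 → Set α}
    (hSo : ∀ j, IsOpen (S j)) (hSc : ∀ j, IsConnected (S j))
    (hSd : Pairwise (fun i j => Disjoint (S i) (S j)))
    (hTo : ∀ j, IsOpen (T j)) (hTc : ∀ j, IsPreconnected (T j))
    (hTd : Pairwise (fun i j => Disjoint (T i) (T j)))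
    (hU : ⋃ j, S j = ⋃ j, T j) : ∃ σ : Equiv.Perm (Fin 3), ∀ j, S j = T (σ j) := by
  -- each S j is contained in some T k
  have key : ∀ (A B : Fin 3 → Set α), (∀ j, IsOpen (B j)) →
      (Pairwise (fun i j => Disjoint (B i) (B j))) → ∀ j, IsPreconnected (A j) → (A j).Nonempty →
      A j ⊆ ⋃ k, B k → ∃ k, A j ⊆ B k := by
    intro A B hBo hBd j hA hne hsub
    obtain ⟨x, hx⟩ := hne
    obtain ⟨k, hk⟩ := mem_iUnion.1 (hsub hx)
    refine ⟨k, ?_⟩
    have hopen : IsOpen (⋃ i ∈ ({i | i ≠ k} : Set (Fin 3)), B i) :=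
      isOpen_biUnion fun i _ => hBo i
    refine hA.subset_left_of_subset_union (hBo k) hopen ?_ ?_ ⟨x, hx, hk⟩
    · rw [Set.disjoint_iUnion₂_right]
      intro i hi
      exact hBd (Ne.symm hi)
    · intro y hy
      obtain ⟨i, hi⟩ := mem_iUnion.1 (hsub hy)
      by_cases h : i = k
      · left; rwa [h] at hi
      · right
        exact mem_iUnion₂.2 ⟨i, h, hi⟩
  have h1 : ∀ j, ∃ k, S j ⊆ T k := fun j =>
    key S T hTo hTd j (hSc j).isPreconnected (hSc j).nonempty (by
      rw [← hU]; exact subset_iUnion S j)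
  choose f hf using h1
  have hTf : ∀ j, T (f j) ⊆ S j := by
    intro j
    have hne : (T (f j)).Nonempty := (hSc j).nonempty.mono (hf j)
    obtain ⟨k, hk⟩ := key T S hSo hSd (f j) (hTc _) hne (by rw [hU]; exact subset_iUnion T (f j))
    have : k = j := by
      by_contra hkj
      obtain ⟨x, hx⟩ := (hSc j).nonempty
      exact (Set.disjoint_left.1 (hSd hkj)) (hk (hf j hx)) hx
    rwa [this] at hk
  have heq : ∀ j, S j = T (f j) := fun j => Subset.antisymm (hf j) (hTf j)
  have hinj : Function.Injective f := by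
    intro i j hij
    by_contra hne
    obtain ⟨x, hx⟩ := (hSc i).nonempty
    have h2 : x ∈ S j := by rw [heq j, ← hij, ← heq i]; exact hx
    exact (Set.disjoint_left.1 (hSd hne)) hx h2
  refine ⟨Equiv.ofBijective f (Finite.injective_iff_bijective.1 hinj), fun j => heq j⟩

/-- the cross product -/
def cr (v w : Plane) : ℝ := v 0 * w 1 - v 1 * w 0

theorem cr_identity (a b c : Plane) (i : Fin 2) :
    cr a b * c i + cr b c * a i + cr c a * b i = 0 := by
  unfold cr
  fin_cases i <;> simp <;> ring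


theorem cr_cont (a X : Plane) : Continuous (fun q : Plane => cr a (q - X)) := by
  unfold cr; fun_prop

theorem cr_comb (a X p q : Plane) (s t : ℝ) (hst : s + t = 1) :
    cr a ((s • p + t • q) - X) = s * cr a (p - X) + t * cr a (q - X) := by
  unfold cr
  have : t = 1 - s := by linarith
  subst this
  simp
  ring

/-- The three sectors of a region cut from `X` by the chords towards `B0` and `B1`. -/
def sectors (C : Set Plane) (X B0 B1 : Plane) : Fin 3 → Set Plane :=
  ![{q | q ∈ interior C ∧ cr (B0 - X) (q - X) < 0},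
    {q | q ∈ interior C ∧ 0 < cr (B0 - X) (q - X) ∧ cr (B1 - X) (q - X) < 0},
    {q | q ∈ interior C ∧ 0 < cr (B1 - X) (q - X)}]

theorem sectors_open (C : Set Plane) (X B0 B1 : Plane) (j : Fin 3) :
    IsOpen (sectors C X B0 B1 j) := by
  fin_cases j
  · exact isOpen_interior.inter (isOpen_lt (cr_cont _ _) continuous_const)
  · exact isOpen_interior.inter
      ((isOpen_lt continuous_const (cr_cont _ _)).inter (isOpen_lt (cr_cont _ _) continuous_const))
  · exact isOpen_interior.inter (isOpen_lt continuous_const (cr_cont _ _))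

theorem convex_lt (a X : Plane) : Convex ℝ {q : Plane | cr a (q - X) < 0} := by
  intro p hp q hq s t hs ht hst
  simp only [mem_ofPred_eq] at *
  rw [cr_comb _ _ _ _ _ _ hst]
  rcases eq_or_lt_of_le hs with h | h
  · rw [← h]; have : t = 1 := by linarith
    rw [this]; linarith
  · have := mul_neg_of_pos_of_neg h hp
    have := mul_nonpos_of_nonneg_of_nonpos ht hq.le
    linarith

theorem convex_gt (a X : Plane) : Convex ℝ {q : Plane | 0 < cr a (q - X)} := by
  intro p hp q hq s t hs ht hst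
  simp only [mem_ofPred_eq] at *
  rw [cr_comb _ _ _ _ _ _ hst]
  rcases eq_or_lt_of_le hs with h | h
  · rw [← h]; have : t = 1 := by linarith
    rw [this]; linarith
  · have := mul_pos h hp
    have := mul_nonneg ht hq.le
    linarith

theorem sectors_convex {C : Set Plane} (hC : Convex ℝ C) (X B0 B1 : Plane) (j : Fin 3) :
    Convex ℝ (sectors C X B0 B1 j) := by
  fin_cases j
  · exact hC.interior.inter (convex_lt _ _)
  · exact hC.interior.inter ((convex_gt _ _).inter (convex_lt _ _))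
  · exact hC.interior.inter (convex_gt _ _)

/-- linear form with coefficients -/
def lf (α β : ℝ) (v : Plane) : ℝ := α * v 0 + β * v 1

theorem lf_identity (α β : ℝ) (a b c : Plane) :
    cr a b * lf α β c + cr b c * lf α β a + cr c a * lf α β b = 0 := by
  have h0 := cr_identity a b c 0
  have h1 := cr_identity a b c 1
  unfold lf
  linear_combination α * h0 + β * h1

theorem cr_swap (a b : Plane) : cr a b = - cr b a := by unfold cr; ring

theorem cr_neg_of_nonpos {α β : ℝ} {a b v : Plane} (hab : 0 < cr a b) (ha : 0 < lf α β a)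
    (hb : 0 < lf α β b) (hv : 0 < lf α β v) (h : cr a v ≤ 0) : cr b v < 0 := by
  have h1 := lf_identity α β a b v
  rw [cr_swap v a] at h1
  have h2 : 0 < cr a b * lf α β v := mul_pos hab hv
  have h3 : cr a v * lf α β b ≤ 0 := mul_nonpos_of_nonpos_of_nonneg h hb.le
  by_contra h4
  push Not at h4
  have h5 : 0 ≤ cr b v * lf α β a := mul_nonneg h4 ha.le
  linarith

theorem sectors_disjoint {C : Set Plane} {α β : ℝ} {X B0 B1 : Plane}
    (hl : ∀ q ∈ interior C, 0 < lf α β (q - X)) (h0 : 0 < lf α β (B0 - X))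
    (h1 : 0 < lf α β (B1 - X)) (hcr : 0 < cr (B0 - X) (B1 - X)) :
    Pairwise (fun i j => Disjoint (sectors C X B0 B1 i) (sectors C X B0 B1 j)) := by
  have d01 : Disjoint (sectors C X B0 B1 0) (sectors C X B0 B1 1) := by
    rw [Set.disjoint_left]
    rintro q ⟨_, hq⟩ ⟨_, hq', _⟩
    exact absurd hq (not_lt.2 hq'.le)
  have d12 : Disjoint (sectors C X B0 B1 1) (sectors C X B0 B1 2) := by
    rw [Set.disjoint_left]
    rintro q ⟨_, _, hq⟩ ⟨_, hq'⟩
    exact absurd hq (not_lt.2 hq'.le)
  have d02 : Disjoint (sectors C X B0 B1 0) (sectors C X B0 B1 2) := by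
    rw [Set.disjoint_left]
    rintro q ⟨hq0, hq⟩ ⟨_, hq'⟩
    have := cr_neg_of_nonpos hcr h0 h1 (hl q hq0) hq.le
    exact absurd this (not_lt.2 hq'.le)
  intro i j hij
  fin_cases i <;> fin_cases j <;> first | exact absurd rfl hij | skip
  · exact d01
  · exact d02
  · exact d01.symm
  · exact d12
  · exact d02.symm
  · exact d12.symm

/-- a point of the interior on the line of a chord lies on the chord -/
theorem mem_chord {C : Set Plane} (hC : Convex ℝ C) {α β : ℝ} {X B q : Plane}
    (hX : X ∈ closure C) (hB : B ∈ frontier C)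
    (hq : q ∈ interior C) (hlq : 0 < lf α β (q - X)) (hlB : 0 < lf α β (B - X))
    (h : cr (B - X) (q - X) = 0) : q ∈ segment ℝ X B := by
  -- q - X = s • (B - X)
  set s : ℝ := lf α β (q - X) / lf α β (B - X) with hs
  have hspos : 0 < s := div_pos hlq hlB
  have hsmul : lf α β (q - X) = s * lf α β (B - X) := by
    rw [hs]; field_simp
  have hcoord : ∀ i : Fin 2, (q - X) i = s * (B - X) i := by
    intro i
    -- the vector w = (q-X) - s (B-X) has cr (B-X) w = 0 and lf w = 0
    have e0 : (B - X) 0 * (q - X) 1 - (B - X) 1 * (q - X) 0 = 0 := h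
    have e1 : α * (q - X) 0 + β * (q - X) 1 = s * (α * (B - X) 0 + β * (B - X) 1) := hsmul
    have hpos : α * (B - X) 0 + β * (B - X) 1 ≠ 0 := hlB.ne'
    fin_cases i
    · have : ((q - X) 0 - s * (B - X) 0) * (α * (B - X) 0 + β * (B - X) 1) = 0 := by
        linear_combination (B - X) 0 * e1 - β * e0
      rcases mul_eq_zero.1 this with h' | h'
      · simpa using sub_eq_zero.1 h'
      · exact absurd h' hpos
    · have : ((q - X) 1 - s * (B - X) 1) * (α * (B - X) 0 + β * (B - X) 1) = 0 := by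
        linear_combination (B - X) 1 * e1 + α * e0
      rcases mul_eq_zero.1 this with h' | h'
      · simpa using sub_eq_zero.1 h'
      · exact absurd h' hpos
  have hq_eq : q - X = s • (B - X) := by
    ext i; rw [hcoord i]; simp
  have hs1 : s ≤ 1 := by
    by_contra hgt
    push Not at hgt
    -- B is strictly between X and q
    have hBmem : B ∈ openSegment ℝ X q := by
      refine ⟨1 - 1 / s, 1 / s, ?_, by positivity, by ring, ?_⟩
      · have : 1 / s < 1 := by rw [div_lt_one hspos]; exact hgt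
        linarith
      · have : q = X + s • (B - X) := by rw [← hq_eq]; abel
        rw [this]
        ext i
        simp
        field_simp
        ring
    have := hC.openSegment_closure_interior_subset_interior hX hq hBmem
    exact (hB.2) this
  have : q = X + s • (B - X) := by rw [← hq_eq]; abel
  refine ⟨1 - s, s, by linarith, hspos.le, by ring, ?_⟩
  rw [this]
  ext i
  simp
  ring


theorem cr_seg {a X B q : Plane} (hq : q ∈ segment ℝ X B) :
    ∃ t : ℝ, 0 ≤ t ∧ t ≤ 1 ∧ cr a (q - X) = t * cr a (B - X) := by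
  obtain ⟨s, t, hs, ht, hst, rfl⟩ := hq
  refine ⟨t, ht, by linarith, ?_⟩
  rw [cr_comb _ _ _ _ _ _ hst]
  unfold cr; simp

theorem cr_self (a : Plane) : cr a a = 0 := by unfold cr; ring

theorem sectors_union {C : Set Plane} (hC : Convex ℝ C) {α β : ℝ} {X B0 B1 : Plane}
    (hX : X ∈ closure C) (hB0 : B0 ∈ frontier C) (hB1 : B1 ∈ frontier C)
    (hl : ∀ q ∈ interior C, 0 < lf α β (q - X)) (h0 : 0 < lf α β (B0 - X))
    (h1 : 0 < lf α β (B1 - X)) (hcr : 0 < cr (B0 - X) (B1 - X)) :
    ⋃ j, sectors C X B0 B1 j = interior C \ (segment ℝ X B0 ∪ segment ℝ X B1) := by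
  ext q
  simp only [mem_iUnion, mem_sdiff, mem_union]
  constructor
  · rintro ⟨j, hj⟩
    fin_cases j
    · obtain ⟨hq, h⟩ := hj
      refine ⟨hq, ?_⟩
      rintro (hs | hs)
      · obtain ⟨t, _, _, ht⟩ := cr_seg (a := B0 - X) hs
        rw [cr_self] at ht
        rw [ht] at h; simp at h
      · obtain ⟨t, _, _, ht⟩ := cr_seg (a := B1 - X) hs
        rw [cr_self] at ht
        have := cr_neg_of_nonpos hcr h0 h1 (hl q hq) h.le
        rw [ht] at this; simp at this
    · obtain ⟨hq, h, h'⟩ := hj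
      refine ⟨hq, ?_⟩
      rintro (hs | hs)
      · obtain ⟨t, _, _, ht⟩ := cr_seg (a := B0 - X) hs
        rw [cr_self] at ht
        rw [ht] at h; simp at h
      · obtain ⟨t, _, _, ht⟩ := cr_seg (a := B1 - X) hs
        rw [cr_self] at ht
        rw [ht] at h'; simp at h'
    · obtain ⟨hq, h⟩ := hj
      refine ⟨hq, ?_⟩
      rintro (hs | hs)
      · obtain ⟨t, _, _, ht⟩ := cr_seg (a := B0 - X) hs
        rw [cr_self] at ht
        have := cr_neg_of_nonpos hcr h0 h1 (hl q hq) (by rw [ht]; simp)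
        exact absurd this (not_lt.2 (le_of_lt h))
      · obtain ⟨t, _, _, ht⟩ := cr_seg (a := B1 - X) hs
        rw [cr_self] at ht
        rw [ht] at h; simp at h
  · rintro ⟨hq, hns⟩
    push Not at hns
    have n0 : cr (B0 - X) (q - X) ≠ 0 := fun h => hns.1 (mem_chord hC hX hB0 hq (hl q hq) h0 h)
    have n1 : cr (B1 - X) (q - X) ≠ 0 := fun h => hns.2 (mem_chord hC hX hB1 hq (hl q hq) h1 h)
    rcases lt_or_gt_of_ne n0 with h | h
    · exact ⟨0, hq, h⟩
    · rcases lt_or_gt_of_ne n1 with h' | h'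
      · exact ⟨1, hq, h, h'⟩
      · exact ⟨2, hq, h'⟩

theorem lf_pos_of_enters {C : Set Plane} {α β : ℝ} {X B : Plane}
    (hl : ∀ q ∈ interior C, 0 < lf α β (q - X)) (h : openSegment ℝ X B ⊆ interior C) :
    0 < lf α β (B - X) := by
  have hm : (1 / 2 : ℝ) • X + (1 / 2 : ℝ) • B ∈ interior C :=
    h ⟨1 / 2, 1 / 2, by norm_num, by norm_num, by norm_num, rfl⟩
  have := hl _ hm
  unfold lf at *
  simp at *
  linarith

theorem sectors_of_two_ray {C : Set Plane} (hC : Convex ℝ C) {α β : ℝ} {X : Plane}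
    {B : Fin 2 → Plane} {S : Fin 3 → Set Plane}
    (hl : ∀ q ∈ interior C, 0 < lf α β (q - X)) (h : IsTwoRayEquipartition C X B S) :
    ∃ b0 b1 : Plane, b0 ∈ frontier C ∧ b1 ∈ frontier C ∧ openSegment ℝ X b0 ⊆ interior C ∧
      openSegment ℝ X b1 ⊆ interior C ∧ 0 < cr (b0 - X) (b1 - X) ∧
      ∃ σ : Equiv.Perm (Fin 3), ∀ j, S j = sectors C X b0 b1 (σ j) := by
  have hX : X ∈ closure C := h.source.1
  have l0 := lf_pos_of_enters hl (h.enters 0)
  have l1 := lf_pos_of_enters hl (h.enters 1)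
  have hK : ⋃ i, segment ℝ X (B i) = segment ℝ X (B 0) ∪ segment ℝ X (B 1) := by
    ext q; simp [Fin.exists_fin_two]
  have hcuts := h.cuts
  rcases lt_trichotomy (cr (B 0 - X) (B 1 - X)) 0 with hneg | hzero | hpos
  · have hpos : 0 < cr (B 1 - X) (B 0 - X) := by rw [cr_swap]; linarith
    refine ⟨B 1, B 0, h.boundary 1, h.boundary 0, h.enters 1, h.enters 0, hpos, ?_⟩
    apply perm_of_components hcuts.isOpen hcuts.isConnected hcuts.disjoint
      (sectors_open C X (B 1) (B 0)) (fun j => (sectors_convex hC X (B 1) (B 0) j).isPreconnected)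
      (sectors_disjoint hl l1 l0 hpos)
    rw [hcuts.iUnion_eq, sectors_union hC hX (h.boundary 1) (h.boundary 0) hl l1 l0 hpos, hK,
      union_comm]
  · exfalso
    set T : Fin 3 → Set Plane := ![{q | q ∈ interior C ∧ cr (B 0 - X) (q - X) < 0}, ∅,
      {q | q ∈ interior C ∧ 0 < cr (B 0 - X) (q - X)}] with hT
    have hTo : ∀ j, IsOpen (T j) := by
      intro j
      fin_cases j
      · exact isOpen_interior.inter (isOpen_lt (cr_cont _ _) continuous_const)
      · exact isOpen_empty
      · exact isOpen_interior.inter (isOpen_lt continuous_const (cr_cont _ _))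
    have hTc : ∀ j, IsPreconnected (T j) := by
      intro j
      fin_cases j
      · exact (hC.interior.inter (convex_lt _ _)).isPreconnected
      · exact isPreconnected_empty
      · exact (hC.interior.inter (convex_gt _ _)).isPreconnected
    have hTd : Pairwise (fun i j => Disjoint (T i) (T j)) := by
      have d02 : Disjoint (T 0) (T 2) := by
        rw [Set.disjoint_left]
        rintro q ⟨_, hq⟩ ⟨_, hq'⟩
        exact absurd hq (not_lt.2 hq'.le)
      intro i j hij
      fin_cases i <;> fin_cases j <;> first | exact absurd rfl hij | skip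
      · exact disjoint_bot_right
      · exact d02
      · exact disjoint_bot_left
      · exact disjoint_bot_left
      · exact d02.symm
      · exact disjoint_bot_right
    have hU : ⋃ j, S j = ⋃ j, T j := by
      rw [hcuts.iUnion_eq, hK]
      ext q
      simp only [mem_iUnion, mem_sdiff, mem_union]
      constructor
      · rintro ⟨hq, hns⟩
        push Not at hns
        have n0 : cr (B 0 - X) (q - X) ≠ 0 :=
          fun hh => hns.1 (mem_chord hC hX (h.boundary 0) hq (hl q hq) l0 hh)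
        rcases lt_or_gt_of_ne n0 with hh | hh
        · exact ⟨0, hq, hh⟩
        · exact ⟨2, hq, hh⟩
      · rintro ⟨j, hj⟩
        have hq : q ∈ interior C ∧ cr (B 0 - X) (q - X) ≠ 0 := by
          fin_cases j
          · exact ⟨hj.1, hj.2.ne⟩
          · exact absurd hj (by simp [hT])
          · exact ⟨hj.1, hj.2.ne'⟩
        refine ⟨hq.1, ?_⟩
        rintro (hs | hs)
        · obtain ⟨t, _, _, ht⟩ := cr_seg (a := B 0 - X) hs
          rw [cr_self] at ht
          exact hq.2 (by rw [ht]; simp)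
        · obtain ⟨t, _, _, ht⟩ := cr_seg (a := B 0 - X) hs
          rw [hzero] at ht
          exact hq.2 (by rw [ht]; simp)
    obtain ⟨σ, hσ⟩ := perm_of_components hcuts.isOpen hcuts.isConnected hcuts.disjoint hTo hTc hTd hU
    have := (hcuts.isConnected (σ.symm 1)).nonempty
    rw [hσ] at this
    simp [hT] at this
  · refine ⟨B 0, B 1, h.boundary 0, h.boundary 1, h.enters 0, h.enters 1, hpos, ?_⟩
    apply perm_of_components hcuts.isOpen hcuts.isConnected hcuts.disjoint
      (sectors_open C X (B 0) (B 1)) (fun j => (sectors_convex hC X (B 0) (B 1) j).isPreconnected)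
      (sectors_disjoint hl l0 l1 hpos)
    rw [hcuts.iUnion_eq, sectors_union hC hX (h.boundary 0) (h.boundary 1) hl l0 l1 hpos, hK]

/-- strict monotonicity of the areas cut off by chords from `X` -/
theorem vol_strict {C : Set Plane} (hC : Convex ℝ C) (hfin : volume C ≠ ∞) {α β : ℝ}
    {X b c : Plane} (hl : ∀ q ∈ interior C, 0 < lf α β (q - X))
    (hb : openSegment ℝ X b ⊆ interior C) (hc : openSegment ℝ X c ⊆ interior C)
    (h : 0 < cr (b - X) (c - X)) :
    volume {q | q ∈ interior C ∧ cr (b - X) (q - X) < 0} <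
        volume {q | q ∈ interior C ∧ cr (c - X) (q - X) < 0} ∧
      volume {q | q ∈ interior C ∧ 0 < cr (c - X) (q - X)} <
        volume {q | q ∈ interior C ∧ 0 < cr (b - X) (q - X)} := by
  have lb := lf_pos_of_enters hl hb
  have lc := lf_pos_of_enters hl hc
  set W : Set Plane := {q | q ∈ interior C ∧ 0 < cr (b - X) (q - X) ∧ cr (c - X) (q - X) < 0} with hW
  have hWo : IsOpen W := sectors_open C X b c 1
  have hWne : W.Nonempty := by
    have hb' : (1 / 2 : ℝ) • X + (1 / 2 : ℝ) • b ∈ interior C :=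
      hb ⟨1 / 2, 1 / 2, by norm_num, by norm_num, by norm_num, rfl⟩
    have hc' : (1 / 2 : ℝ) • X + (1 / 2 : ℝ) • c ∈ interior C :=
      hc ⟨1 / 2, 1 / 2, by norm_num, by norm_num, by norm_num, rfl⟩
    refine ⟨(1 / 2 : ℝ) • ((1 / 2 : ℝ) • X + (1 / 2 : ℝ) • b) +
      (1 / 2 : ℝ) • ((1 / 2 : ℝ) • X + (1 / 2 : ℝ) • c), ?_, ?_, ?_⟩
    · exact hC.interior hb' hc' (by norm_num) (by norm_num) (by norm_num)
    · rw [cr_comb _ _ _ _ _ _ (by norm_num), cr_comb _ _ _ _ _ _ (by norm_num),
        cr_comb _ _ _ _ _ _ (by norm_num), cr_self]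
      have : cr (b - X) (X - X) = 0 := by unfold cr; simp
      rw [this]
      linarith
    · rw [cr_comb _ _ _ _ _ _ (by norm_num), cr_comb _ _ _ _ _ _ (by norm_num),
        cr_comb _ _ _ _ _ _ (by norm_num), cr_self]
      have h0 : cr (c - X) (X - X) = 0 := by unfold cr; simp
      have h1 : cr (c - X) (b - X) = - cr (b - X) (c - X) := cr_swap _ _
      rw [h0, h1]
      linarith
  have hWpos : 0 < volume W := hWo.measure_pos volume hWne
  have sub_int : ∀ T : Set Plane, T ⊆ interior C → volume T ≠ ∞ := fun T hT =>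
    ne_top_of_le_ne_top hfin (measure_mono (hT.trans interior_subset))
  constructor
  · have hsub : {q | q ∈ interior C ∧ cr (b - X) (q - X) < 0} ∪ W ⊆
        {q | q ∈ interior C ∧ cr (c - X) (q - X) < 0} := by
      rintro q (⟨hq, hq'⟩ | ⟨hq, _, hq'⟩)
      · exact ⟨hq, cr_neg_of_nonpos h lb lc (hl q hq) hq'.le⟩
      · exact ⟨hq, hq'⟩
    have hdis : Disjoint {q | q ∈ interior C ∧ cr (b - X) (q - X) < 0} W := by
      rw [Set.disjoint_left]
      rintro q ⟨_, hq⟩ ⟨_, hq', _⟩
      exact absurd hq (not_lt.2 hq'.le)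
    calc volume {q | q ∈ interior C ∧ cr (b - X) (q - X) < 0}
        < volume {q | q ∈ interior C ∧ cr (b - X) (q - X) < 0} + volume W :=
          ENNReal.lt_add_right (sub_int _ (fun q hq => hq.1)) hWpos.ne'
      _ = volume ({q | q ∈ interior C ∧ cr (b - X) (q - X) < 0} ∪ W) :=
          (measure_union hdis hWo.measurableSet).symm
      _ ≤ _ := measure_mono hsub
  · have hsub : {q | q ∈ interior C ∧ 0 < cr (c - X) (q - X)} ∪ W ⊆
        {q | q ∈ interior C ∧ 0 < cr (b - X) (q - X)} := by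
      rintro q (⟨hq, hq'⟩ | ⟨hq, hq', _⟩)
      · refine ⟨hq, ?_⟩
        by_contra hh
        push Not at hh
        exact absurd (cr_neg_of_nonpos h lb lc (hl q hq) hh) (not_lt.2 hq'.le)
      · exact ⟨hq, hq'⟩
    have hdis : Disjoint {q | q ∈ interior C ∧ 0 < cr (c - X) (q - X)} W := by
      rw [Set.disjoint_left]
      rintro q ⟨_, hq⟩ ⟨_, _, hq'⟩
      exact absurd hq (not_lt.2 hq'.le)
    calc volume {q | q ∈ interior C ∧ 0 < cr (c - X) (q - X)}
        < volume {q | q ∈ interior C ∧ 0 < cr (c - X) (q - X)} + volume W :=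
          ENNReal.lt_add_right (sub_int _ (fun q hq => hq.1)) hWpos.ne'
      _ = volume ({q | q ∈ interior C ∧ 0 < cr (c - X) (q - X)} ∪ W) :=
          (measure_union hdis hWo.measurableSet).symm
      _ ≤ _ := measure_mono hsub

/-- two chords from `X` in the same direction are equal -/
theorem eq_of_cr_zero {C : Set Plane} {α β : ℝ}
    {X b c : Plane} (hl : ∀ q ∈ interior C, 0 < lf α β (q - X))
    (hbf : b ∈ frontier C) (hcf : c ∈ frontier C)
    (hb : openSegment ℝ X b ⊆ interior C) (hc : openSegment ℝ X c ⊆ interior C)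
    (h : cr (b - X) (c - X) = 0) : b = c := by
  have lb := lf_pos_of_enters hl hb
  have lc := lf_pos_of_enters hl hc
  set s : ℝ := lf α β (c - X) / lf α β (b - X) with hs
  have hspos : 0 < s := div_pos lc lb
  have hsmul : lf α β (c - X) = s * lf α β (b - X) := by
    rw [hs]; field_simp
  have hcoord : ∀ i : Fin 2, (c - X) i = s * (b - X) i := by
    intro i
    have e0 : (b - X) 0 * (c - X) 1 - (b - X) 1 * (c - X) 0 = 0 := h
    have e1 : α * (c - X) 0 + β * (c - X) 1 = s * (α * (b - X) 0 + β * (b - X) 1) := hsmul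
    have hpos : α * (b - X) 0 + β * (b - X) 1 ≠ 0 := lb.ne'
    fin_cases i
    · have : ((c - X) 0 - s * (b - X) 0) * (α * (b - X) 0 + β * (b - X) 1) = 0 := by
        linear_combination (b - X) 0 * e1 - β * e0
      rcases mul_eq_zero.1 this with h' | h'
      · simpa using sub_eq_zero.1 h'
      · exact absurd h' hpos
    · have : ((c - X) 1 - s * (b - X) 1) * (α * (b - X) 0 + β * (b - X) 1) = 0 := by
        linear_combination (b - X) 1 * e1 + α * e0
      rcases mul_eq_zero.1 this with h' | h'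
      · simpa using sub_eq_zero.1 h'
      · exact absurd h' hpos
  have hceq : c = X + s • (b - X) := by
    ext i
    have := hcoord i
    simp at this ⊢
    linarith
  rcases lt_trichotomy s 1 with h1 | h1 | h1
  · exfalso
    apply hcf.2
    apply hb
    refine ⟨1 - s, s, by linarith, hspos, by ring, ?_⟩
    rw [hceq]; ext i; simp; ring
  · rw [hceq, h1]; ext i; simp
  · exfalso
    apply hbf.2
    apply hc
    refine ⟨1 - 1 / s, 1 / s, ?_, by positivity, by ring, ?_⟩
    · have : 1 / s < 1 := by rw [div_lt_one hspos]; exact h1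
      linarith
    · rw [hceq]; ext i; simp; field_simp; ring

/-- uniqueness of the two-ray equipartition from a boundary point -/
theorem two_ray_unique {C : Set Plane} (hC : Convex ℝ C) (hfin : volume C ≠ ∞) {α β : ℝ}
    {X : Plane} {B B' : Fin 2 → Plane} {S S' : Fin 3 → Set Plane}
    (hl : ∀ q ∈ interior C, 0 < lf α β (q - X)) (h : IsTwoRayEquipartition C X B S)
    (h' : IsTwoRayEquipartition C X B' S') :
    ∃ σ : Equiv.Perm (Fin 3), ∀ j, S j = S' (σ j) := by
  obtain ⟨b0, b1, hb0, hb1, eb0, eb1, hb, σ, hσ⟩ := sectors_of_two_ray hC hl h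
  obtain ⟨c0, c1, hc0, hc1, ec0, ec1, hc, τ, hτ⟩ := sectors_of_two_ray hC hl h'
  have vb : ∀ k, volume (sectors C X b0 b1 k) = volume C / 3 := by
    intro k
    have := h.cuts.area (σ.symm k)
    rwa [hσ, Equiv.apply_symm_apply] at this
  have vc : ∀ k, volume (sectors C X c0 c1 k) = volume C / 3 := by
    intro k
    have := h'.cuts.area (τ.symm k)
    rwa [hτ, Equiv.apply_symm_apply] at this
  have e0 : b0 = c0 := by
    apply eq_of_cr_zero hl hb0 hc0 eb0 ec0
    by_contra hne
    rcases lt_or_gt_of_ne hne with hlt | hgt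
    · have hpos : 0 < cr (c0 - X) (b0 - X) := by rw [cr_swap]; linarith
      have := (vol_strict hC hfin hl ec0 eb0 hpos).1
      have h1 := vb 0
      have h2 := vc 0
      simp only [sectors, Matrix.cons_val_zero] at h1 h2
      rw [h1, h2] at this
      exact lt_irrefl _ this
    · have := (vol_strict hC hfin hl eb0 ec0 hgt).1
      have h1 := vb 0
      have h2 := vc 0
      simp only [sectors, Matrix.cons_val_zero] at h1 h2
      rw [h1, h2] at this
      exact lt_irrefl _ this
  have e1 : b1 = c1 := by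
    apply eq_of_cr_zero hl hb1 hc1 eb1 ec1
    by_contra hne
    have h1 := vb 2
    have h2 := vc 2
    have h1' : volume {q | q ∈ interior C ∧ 0 < cr (b1 - X) (q - X)} = volume C / 3 := h1
    have h2' : volume {q | q ∈ interior C ∧ 0 < cr (c1 - X) (q - X)} = volume C / 3 := h2
    rcases lt_or_gt_of_ne hne with hlt | hgt
    · have hpos : 0 < cr (c1 - X) (b1 - X) := by rw [cr_swap]; linarith
      have := (vol_strict hC hfin hl ec1 eb1 hpos).2
      rw [h1', h2'] at this
      exact lt_irrefl _ this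
    · have := (vol_strict hC hfin hl eb1 ec1 hgt).2
      rw [h1', h2'] at this
      exact lt_irrefl _ this
  subst e0 e1
  refine ⟨σ.trans τ.symm, fun j => ?_⟩
  rw [hσ, hτ]
  simp


theorem volume_xy {T : Set (ℝ × ℝ)} (hT : MeasurableSet T) :
    volume {q : Plane | (q 0, q 1) ∈ T} = volume T := by
  have h := (volume_preserving_finTwoArrow ℝ).comp (PiLp.volume_preserving_ofLp (Fin 2))
  exact h.measure_preimage hT.nullMeasurableSet

theorem volume_yx {T : Set (ℝ × ℝ)} (hT : MeasurableSet T) :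
    volume {q : Plane | (q 1, q 0) ∈ T} = volume T := by
  have h := (Measure.measurePreserving_swap (μ := (volume : Measure ℝ)) (ν := (volume : Measure ℝ))).comp
    ((volume_preserving_finTwoArrow ℝ).comp (PiLp.volume_preserving_ofLp (Fin 2)))
  exact h.measure_preimage hT.nullMeasurableSet

/-- area between two graphs over the second coordinate -/
theorem area_between {a b : ℝ} (hab : a ≤ b) {f g : ℝ → ℝ} (hf : Continuous f) (hg : Continuous g)
    (hfg : ∀ y ∈ Ioo a b, f y ≤ g y) :
    volume {q : Plane | q 1 ∈ Ioo a b ∧ f (q 1) < q 0 ∧ q 0 < g (q 1)} =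
      ENNReal.ofReal (∫ y in a..b, (g y - f y)) := by
  have h1 : MeasurableSet (regionBetween f g (Ioo a b)) :=
    measurableSet_regionBetween hf.measurable hg.measurable measurableSet_Ioo
  have h2 := volume_yx h1
  have h3 : {q : Plane | (q 1, q 0) ∈ regionBetween f g (Ioo a b)} =
      {q : Plane | q 1 ∈ Ioo a b ∧ f (q 1) < q 0 ∧ q 0 < g (q 1)} := by
    ext q; simp [regionBetween]
  rw [← h3, h2]
  have hfi : IntegrableOn f (Ioo a b) volume :=
    (hf.integrableOn_Icc (a := a) (b := b)).mono_set Ioo_subset_Icc_self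
  have hgi : IntegrableOn g (Ioo a b) volume :=
    (hg.integrableOn_Icc (a := a) (b := b)).mono_set Ioo_subset_Icc_self
  have h4 := volume_regionBetween_eq_integral hfi hgi measurableSet_Ioo hfg
  rw [intervalIntegral.integral_of_le hab, ← integral_Ioc_eq_integral_Ioo] at *
  exact h4

/-- area between two graphs over the first coordinate -/
theorem area_between' {a b : ℝ} (hab : a ≤ b) {f g : ℝ → ℝ} (hf : Continuous f) (hg : Continuous g)
    (hfg : ∀ x ∈ Ioo a b, f x ≤ g x) :
    volume {q : Plane | q 0 ∈ Ioo a b ∧ f (q 0) < q 1 ∧ q 1 < g (q 0)} =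
      ENNReal.ofReal (∫ y in a..b, (g y - f y)) := by
  have h1 : MeasurableSet (regionBetween f g (Ioo a b)) :=
    measurableSet_regionBetween hf.measurable hg.measurable measurableSet_Ioo
  have h2 := volume_xy h1
  have h3 : {q : Plane | (q 0, q 1) ∈ regionBetween f g (Ioo a b)} =
      {q : Plane | q 0 ∈ Ioo a b ∧ f (q 0) < q 1 ∧ q 1 < g (q 0)} := by
    ext q; simp [regionBetween]
  rw [← h3, h2]
  have hfi : IntegrableOn f (Ioo a b) volume :=
    (hf.integrableOn_Icc (a := a) (b := b)).mono_set Ioo_subset_Icc_self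
  have hgi : IntegrableOn g (Ioo a b) volume :=
    (hg.integrableOn_Icc (a := a) (b := b)).mono_set Ioo_subset_Icc_self
  have h4 := volume_regionBetween_eq_integral hfi hgi measurableSet_Ioo hfg
  rw [intervalIntegral.integral_of_le hab, ← integral_Ioc_eq_integral_Ioo] at *
  exact h4

/-- the square -/
def sq : Set Plane := {q | 0 ≤ q 0 ∧ q 0 ≤ 12 ∧ 0 ≤ q 1 ∧ q 1 ≤ 12}

theorem sq_eq : sq = (WithLp.ofLp : Plane → (Fin 2 → ℝ)) ⁻¹' (Set.Icc (fun _ => 0) (fun _ => 12)) := by
  ext q
  simp [sq, Pi.le_def, Fin.forall_fin_two]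
  tauto

theorem sq_compact : IsCompact sq := by
  have h := (EuclideanSpace.equiv (Fin 2) ℝ).toHomeomorph.isCompact_preimage
    (s := Set.Icc (fun _ => (0 : ℝ)) (fun _ => 12))
  rw [sq_eq]
  exact h.2 isCompact_Icc

theorem sq_interior : interior sq = {q : Plane | 0 < q 0 ∧ q 0 < 12 ∧ 0 < q 1 ∧ q 1 < 12} := by
  have h := (EuclideanSpace.equiv (Fin 2) ℝ).toHomeomorph.preimage_interior
    (Set.Icc (fun _ => (0 : ℝ)) (fun _ => 12))
  rw [sq_eq]
  have h2 : interior (Set.Icc (fun _ : Fin 2 => (0 : ℝ)) (fun _ => 12)) =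
      Set.pi univ (fun _ => Set.Ioo 0 12) := by
    rw [← Set.pi_univ_Icc, interior_pi_set Set.finite_univ]
    simp
  rw [h2] at h
  have h3 : interior ((WithLp.ofLp : Plane → (Fin 2 → ℝ)) ⁻¹' (Set.Icc (fun _ => 0) (fun _ => 12)))
    = (WithLp.ofLp : Plane → (Fin 2 → ℝ)) ⁻¹' (Set.pi univ (fun _ => Set.Ioo 0 12)) := h.symm
  rw [h3]
  ext q
  simp [Fin.forall_fin_two]
  tauto

theorem sq_convex : Convex ℝ sq := by
  intro p hp q hq s t hs ht hst
  obtain ⟨h1, h2, h3, h4⟩ := hp
  obtain ⟨k1, k2, k3, k4⟩ := hq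
  refine ⟨?_, ?_, ?_, ?_⟩ <;> simp <;> nlinarith

theorem sq_volume : volume sq = 144 := by
  rw [sq_eq]
  rw [(PiLp.volume_preserving_ofLp (Fin 2)).measure_preimage measurableSet_Icc.nullMeasurableSet]
  rw [Real.volume_Icc_pi]
  simp
  norm_num

theorem sq_closed : IsClosed sq := sq_compact.isClosed


/-- point with coordinates -/
noncomputable def pt (x y : ℝ) : Plane := !₂[x, y]

@[simp] theorem pt_zero (x y : ℝ) : pt x y 0 = x := by simp [pt]
@[simp] theorem pt_one (x y : ℝ) : pt x y 1 = y := by simp [pt]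

theorem eq_pt (q : Plane) : q = pt (q 0) (q 1) := by
  ext i; fin_cases i <;> simp

theorem mem_seg {a b c d : ℝ} {q : Plane} (t : ℝ) (h0 : 0 ≤ t) (h1 : t ≤ 1)
    (e0 : q 0 = a + t * (c - a)) (e1 : q 1 = b + t * (d - b)) :
    q ∈ segment ℝ (pt a b) (pt c d) := by
  refine ⟨1 - t, t, by linarith, h0, by ring, ?_⟩
  ext i
  fin_cases i
  · simp; linarith
  · simp; linarith

theorem seg_coords {a b c d : ℝ} {q : Plane} (h : q ∈ segment ℝ (pt a b) (pt c d)) :
    ∃ t : ℝ, 0 ≤ t ∧ t ≤ 1 ∧ q 0 = a + t * (c - a) ∧ q 1 = b + t * (d - b) := by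
  obtain ⟨s, t, hs, ht, hst, rfl⟩ := h
  refine ⟨t, ht, by linarith, ?_, ?_⟩
  · have : s = 1 - t := by linarith
    subst this; simp; ring
  · have : s = 1 - t := by linarith
    subst this; simp; ring

theorem openSeg_coords {a b c d : ℝ} {q : Plane}
    (h : q ∈ segment ℝ (pt a b) (pt c d) \ {pt a b, pt c d}) :
    ∃ t : ℝ, 0 < t ∧ t < 1 ∧ q 0 = a + t * (c - a) ∧ q 1 = b + t * (d - b) := by
  obtain ⟨h1, h2⟩ := h
  obtain ⟨t, h0, h1, e0, e1⟩ := seg_coords h1
  refine ⟨t, ?_, ?_, e0, e1⟩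
  · rcases eq_or_lt_of_le h0 with h | h
    · exfalso; apply h2; left
      rw [eq_pt q, e0, e1, ← h]; simp
    · exact h
  · rcases eq_or_lt_of_le h1 with h | h
    · exfalso; apply h2; right
      rw [mem_singleton_iff, eq_pt q, e0, e1, h]; simp
    · exact h

theorem measure_edge (x y : Plane) : μH[1] (segment ℝ x y \ {x, y}) = edist x y := by
  have : NullSingletonClass (μH[1] : Measure Plane) :=
    Measure.nullSingletonClass_hausdorff Plane one_pos
  rw [measure_sdiff_null, hausdorffMeasure_segment]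
  exact (Set.toFinite ({x, y} : Set Plane)).measure_zero _

theorem measurable_edge (x y : Plane) : MeasurableSet (segment ℝ x y \ {x, y}) := by
  refine MeasurableSet.diff ?_ (Set.toFinite _).measurableSet
  have : IsCompact (segment ℝ x y) := by
    rw [segment_eq_image_lineMap]
    exact isCompact_Icc.image (AffineMap.lineMap_continuous)
  exact this.measurableSet

/-- lower bound for perimeters -/
theorem le_perimeter {n : ℕ} (x y : Fin n → Plane) {T : Set Plane}
    (hsub : ∀ i, segment ℝ (x i) (y i) \ {x i, y i} ⊆ frontier T)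
    (hd : Pairwise (fun i j => Disjoint (segment ℝ (x i) (y i) \ {x i, y i})
      (segment ℝ (x j) (y j) \ {x j, y j}))) :
    ∑ i, edist (x i) (y i) ≤ perimeter T := by
  have h1 : μH[1] (⋃ i, segment ℝ (x i) (y i) \ {x i, y i}) = ∑ i, edist (x i) (y i) := by
    rw [measure_iUnion hd (fun i => measurable_edge _ _), tsum_fintype]
    exact Finset.sum_congr rfl fun i _ => measure_edge _ _
  rw [← h1]
  exact measure_mono (iUnion_subset hsub)

/-- upper bound for perimeters -/
theorem perimeter_le {n : ℕ} (x y : Fin n → Plane) {T : Set Plane}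
    (hsub : frontier T ⊆ ⋃ i, segment ℝ (x i) (y i)) :
    perimeter T ≤ ∑ i, edist (x i) (y i) := by
  have h1 : μH[1] (⋃ i, segment ℝ (x i) (y i)) ≤ ∑ i, edist (x i) (y i) := by
    refine (measure_iUnion_fintype_le _ _).trans (le_of_eq ?_)
    exact Finset.sum_congr rfl fun i _ => hausdorffMeasure_segment _ _
  exact (measure_mono hsub).trans h1

theorem edist_pt_le {a b c d r : ℝ} (hr : 0 ≤ r) (h : (a - c) ^ 2 + (b - d) ^ 2 ≤ r ^ 2) :
    edist (pt a b) (pt c d) ≤ ENNReal.ofReal r := by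
  rw [edist_dist]
  apply ENNReal.ofReal_le_ofReal
  rw [EuclideanSpace.dist_eq]
  simp only [Fin.sum_univ_two, pt_zero, pt_one, Real.dist_eq, sq_abs]
  exact Real.sqrt_le_iff.2 ⟨hr, h⟩

theorem le_edist_pt {a b c d r : ℝ} (h : r ^ 2 ≤ (a - c) ^ 2 + (b - d) ^ 2) :
    ENNReal.ofReal r ≤ edist (pt a b) (pt c d) := by
  rw [edist_dist]
  apply ENNReal.ofReal_le_ofReal
  rw [EuclideanSpace.dist_eq]
  simp only [Fin.sum_univ_two, pt_zero, pt_one, Real.dist_eq, sq_abs]
  exact Real.le_sqrt_of_sq_le h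

/-- closure by star-shapedness -/
theorem mem_closure_of_star {T : Set Plane} {c q : Plane}
    (h : ∀ t : ℝ, 0 ≤ t → t < 1 → (1 - t) • c + t • q ∈ T) : q ∈ closure T := by
  have hcont : Continuous (fun t : ℝ => (1 - t) • c + t • q) := by fun_prop
  have h1 : Filter.Tendsto (fun t : ℝ => (1 - t) • c + t • q) (nhdsWithin 1 (Iio 1))
      (nhds ((1 - (1:ℝ)) • c + (1:ℝ) • q)) := (hcont.tendsto 1).mono_left nhdsWithin_le_nhds
  have h2 : (1 - (1:ℝ)) • c + (1:ℝ) • q = q := by simp
  rw [h2] at h1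
  refine mem_closure_of_tendsto h1 ?_
  have : Ioo (0:ℝ) 1 ∈ nhdsWithin (1:ℝ) (Iio 1) := Ioo_mem_nhdsLT (by norm_num)
  filter_upwards [this] with t ht
  exact h t ht.1.le ht.2


/-! ### The three-ray equipartition of the square from `(1, 6)` -/

/-- The interior point. -/
noncomputable def P0 : Plane := pt 1 6

/-- The three boundary points. -/
noncomputable def A0 : Fin 3 → Plane := ![pt 7 0, pt 7 12, pt 12 6]

/-- The three pieces. -/
def S0 : Fin 3 → Set Plane :=
  ![{q | q ∈ interior sq ∧ (q 0 + q 1 < 7 ∨ q 0 - q 1 < -5)},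
    {q | q ∈ interior sq ∧ 7 < q 0 + q 1 ∧ q 1 < 6},
    {q | q ∈ interior sq ∧ -5 < q 0 - q 1 ∧ 6 < q 1}]

theorem mem_int {q : Plane} :
    q ∈ interior sq ↔ 0 < q 0 ∧ q 0 < 12 ∧ 0 < q 1 ∧ q 1 < 12 := by
  rw [sq_interior]; rfl

theorem mem_frontier_sq {x y : ℝ} (h : 0 ≤ x ∧ x ≤ 12 ∧ 0 ≤ y ∧ y ≤ 12)
    (h' : x = 0 ∨ x = 12 ∨ y = 0 ∨ y = 12) : pt x y ∈ frontier sq := by
  rw [sq_closed.frontier_eq]
  refine ⟨?_, ?_⟩
  · simpa [sq] using h
  · rw [mem_int]
    simp only [pt_zero, pt_one]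
    rintro ⟨h1, h2, h3, h4⟩
    rcases h' with h | h | h | h <;> linarith

theorem S0_open (j : Fin 3) : IsOpen (S0 j) := by
  have c0 : Continuous fun q : Plane => q 0 := by fun_prop
  have c1 : Continuous fun q : Plane => q 1 := by fun_prop
  fin_cases j
  · exact isOpen_interior.inter ((isOpen_lt (c0.add c1) continuous_const).union
      (isOpen_lt (c0.sub c1) continuous_const))
  · exact isOpen_interior.inter ((isOpen_lt continuous_const (c0.add c1)).inter
      (isOpen_lt c1 continuous_const))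
  · exact isOpen_interior.inter ((isOpen_lt continuous_const (c0.sub c1)).inter
      (isOpen_lt continuous_const c1))

/-- star-shapedness of the left piece, in a strong form -/
theorem S0_zero_star {q : Plane} (h : 0 ≤ q 0 ∧ q 0 ≤ 12 ∧ 0 ≤ q 1 ∧ q 1 ≤ 12)
    (h' : q 0 + q 1 ≤ 7 ∨ q 0 - q 1 ≤ -5) (t : ℝ) (ht0 : 0 ≤ t) (ht1 : t < 1) :
    (1 - t) • pt (1 / 2) 6 + t • q ∈ S0 0 := by
  obtain ⟨h1, h2, h3, h4⟩ := h
  have e1 : 0 ≤ t * q 0 := mul_nonneg ht0 h1
  have e2 : t * q 0 ≤ t * 12 := mul_le_mul_of_nonneg_left h2 ht0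
  have e3 : 0 ≤ t * q 1 := mul_nonneg ht0 h3
  have e4 : t * q 1 ≤ t * 12 := mul_le_mul_of_nonneg_left h4 ht0
  refine ⟨?_, ?_⟩
  · rw [mem_int]
    simp
    refine ⟨?_, ?_, ?_, ?_⟩ <;> linarith
  · simp
    rcases h' with h | h
    · left
      have : t * (q 0 + q 1) ≤ t * 7 := mul_le_mul_of_nonneg_left h ht0
      linarith
    · right
      have : t * (q 0 - q 1) ≤ t * (-5) := mul_le_mul_of_nonneg_left h ht0
      linarith

theorem S0_one_star {q : Plane} (h : 0 ≤ q 0 ∧ q 0 ≤ 12 ∧ 0 ≤ q 1 ∧ q 1 ≤ 12)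
    (h' : 7 ≤ q 0 + q 1 ∧ q 1 ≤ 6) (t : ℝ) (ht0 : 0 ≤ t) (ht1 : t < 1) :
    (1 - t) • pt 10 3 + t • q ∈ S0 1 := by
  obtain ⟨h1, h2, h3, h4⟩ := h
  have e1 : 0 ≤ t * q 0 := mul_nonneg ht0 h1
  have e2 : t * q 0 ≤ t * 12 := mul_le_mul_of_nonneg_left h2 ht0
  have e3 : 0 ≤ t * q 1 := mul_nonneg ht0 h3
  have e5 : t * q 1 ≤ t * 6 := mul_le_mul_of_nonneg_left h'.2 ht0
  have e6 : t * 7 ≤ t * (q 0 + q 1) := mul_le_mul_of_nonneg_left h'.1 ht0
  refine ⟨?_, ?_, ?_⟩
  · rw [mem_int]
    simp
    refine ⟨?_, ?_, ?_, ?_⟩ <;> linarith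
  · simp; linarith
  · simp; linarith

theorem S0_two_star {q : Plane} (h : 0 ≤ q 0 ∧ q 0 ≤ 12 ∧ 0 ≤ q 1 ∧ q 1 ≤ 12)
    (h' : -5 ≤ q 0 - q 1 ∧ 6 ≤ q 1) (t : ℝ) (ht0 : 0 ≤ t) (ht1 : t < 1) :
    (1 - t) • pt 10 9 + t • q ∈ S0 2 := by
  obtain ⟨h1, h2, h3, h4⟩ := h
  have e1 : 0 ≤ t * q 0 := mul_nonneg ht0 h1
  have e2 : t * q 0 ≤ t * 12 := mul_le_mul_of_nonneg_left h2 ht0
  have e3 : t * q 1 ≤ t * 12 := mul_le_mul_of_nonneg_left h4 ht0
  have e5 : t * 6 ≤ t * q 1 := mul_le_mul_of_nonneg_left h'.2 ht0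
  have e6 : t * (-5) ≤ t * (q 0 - q 1) := mul_le_mul_of_nonneg_left h'.1 ht0
  refine ⟨?_, ?_, ?_⟩
  · rw [mem_int]
    simp
    refine ⟨?_, ?_, ?_, ?_⟩ <;> linarith
  · simp; linarith
  · simp; linarith

theorem isConnected_of_star {T : Set Plane} {c : Plane} (hc : c ∈ T)
    (h : ∀ q ∈ T, ∀ t : ℝ, 0 ≤ t → t < 1 → (1 - t) • c + t • q ∈ T) : IsConnected T := by
  have hs : StarConvex ℝ c T := by
    intro q hq a b ha hb hab
    rcases eq_or_lt_of_le ha with h0 | h0
    · have : b = 1 := by linarith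
      rw [← h0, this]; simpa using hq
    · have : a = 1 - b := by linarith
      rw [this]
      exact h q hq b hb (by linarith)
  exact (hs.isPathConnected hc).isConnected

theorem S0_connected (j : Fin 3) : IsConnected (S0 j) := by
  fin_cases j
  · refine isConnected_of_star (c := pt (1 / 2) 6) ?_ ?_
    · refine ⟨by rw [mem_int]; simp; norm_num, ?_⟩
      simp; norm_num
    · rintro q ⟨hq, h'⟩ t ht0 ht1
      rw [mem_int] at hq
      exact S0_zero_star ⟨hq.1.le, hq.2.1.le, hq.2.2.1.le, hq.2.2.2.le⟩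
        (h'.imp le_of_lt le_of_lt) t ht0 ht1
  · refine isConnected_of_star (c := pt 10 3) ?_ ?_
    · refine ⟨by rw [mem_int]; simp; norm_num, ?_, ?_⟩ <;> simp <;> norm_num
    · rintro q ⟨hq, h', h''⟩ t ht0 ht1
      rw [mem_int] at hq
      exact S0_one_star ⟨hq.1.le, hq.2.1.le, hq.2.2.1.le, hq.2.2.2.le⟩
        ⟨h'.le, h''.le⟩ t ht0 ht1
  · refine isConnected_of_star (c := pt 10 9) ?_ ?_
    · refine ⟨by rw [mem_int]; simp; norm_num, ?_, ?_⟩ <;> simp <;> norm_num
    · rintro q ⟨hq, h', h''⟩ t ht0 ht1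
      rw [mem_int] at hq
      exact S0_two_star ⟨hq.1.le, hq.2.1.le, hq.2.2.1.le, hq.2.2.2.le⟩
        ⟨h'.le, h''.le⟩ t ht0 ht1

theorem S0_disjoint : Pairwise (fun i j => Disjoint (S0 i) (S0 j)) := by
  have d01 : Disjoint (S0 0) (S0 1) := by
    rw [Set.disjoint_left]
    rintro q ⟨_, h⟩ ⟨_, h1, h2⟩
    rcases h with h | h <;> linarith
  have d02 : Disjoint (S0 0) (S0 2) := by
    rw [Set.disjoint_left]
    rintro q ⟨_, h⟩ ⟨_, h1, h2⟩
    rcases h with h | h <;> linarith
  have d12 : Disjoint (S0 1) (S0 2) := by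
    rw [Set.disjoint_left]
    rintro q ⟨_, _, h⟩ ⟨_, h1, h2⟩
    linarith
  intro i j hij
  fin_cases i <;> fin_cases j <;> first | exact absurd rfl hij | skip
  · exact d01
  · exact d02
  · exact d01.symm
  · exact d12
  · exact d02.symm
  · exact d12.symm

theorem S0_union : ⋃ j, S0 j = interior sq \ ⋃ i, segment ℝ P0 (A0 i) := by
  ext q
  simp only [mem_iUnion, mem_sdiff]
  constructor
  · rintro ⟨j, hj⟩
    have hq : q ∈ interior sq := by fin_cases j <;> exact hj.1
    refine ⟨hq, ?_⟩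
    rintro ⟨i, hi⟩
    fin_cases i <;> obtain ⟨t, h0, h1, e0, e1⟩ := seg_coords hi <;> fin_cases j
    · rcases hj.2 with h | h <;> linarith
    · have := hj.2.1; linarith
    · have := hj.2.2; linarith
    · rcases hj.2 with h | h <;> linarith
    · have := hj.2.2; linarith
    · have := hj.2.1; linarith
    · rcases hj.2 with h | h <;> linarith
    · have := hj.2.2; linarith
    · have := hj.2.2; linarith
  · rintro ⟨hq, hns⟩
    push Not at hns
    have hq' := mem_int.1 hq
    obtain ⟨h1, h2, h3, h4⟩ := hq'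
    by_cases hl : q 0 + q 1 < 7 ∨ q 0 - q 1 < -5
    · exact ⟨0, hq, hl⟩
    · push Not at hl
      obtain ⟨hl1, hl2⟩ := hl
      rcases lt_trichotomy (q 1) 6 with h6 | h6 | h6
      · rcases eq_or_lt_of_le hl1 with h7 | h7
        · exfalso
          refine hns 0 (mem_seg (1 - q 1 / 6) (by linarith) (by linarith) ?_ ?_)
          · linarith
          · linarith
        · exact ⟨1, hq, h7, h6⟩
      · exfalso
        refine hns 2 (mem_seg ((q 0 - 1) / 11) (by linarith) (by linarith) ?_ ?_)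
        · linarith
        · linarith
      · rcases eq_or_lt_of_le hl2 with h7 | h7
        · exfalso
          refine hns 1 (mem_seg ((q 1 - 6) / 6) (by linarith) (by linarith) ?_ ?_)
          · linarith
          · linarith
        · exact ⟨2, hq, h7, h6⟩


theorem third_eq : volume sq / 3 = ENNReal.ofReal 48 := by
  rw [sq_volume, show (144 : ℝ≥0∞) = ENNReal.ofReal 144 by norm_num,
    show (3 : ℝ≥0∞) = ENNReal.ofReal 3 by norm_num, ← ENNReal.ofReal_div_of_pos (by norm_num)]
  norm_num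

theorem S0_area (j : Fin 3) : volume (S0 j) = volume sq / 3 := by
  rw [third_eq]
  fin_cases j
  · have h : (S0 0) = {q : Plane | q 1 ∈ Ioo (0:ℝ) 12 ∧ (fun _ => (0:ℝ)) (q 1) < q 0 ∧
        q 0 < (fun y => max (7 - y) (y - 5)) (q 1)} := by
      ext q
      constructor
      · rintro ⟨hq, h⟩
        rw [mem_int] at hq
        refine ⟨⟨hq.2.2.1, hq.2.2.2⟩, hq.1, ?_⟩
        rcases h with h | h
        · exact lt_max_of_lt_left (by linarith)
        · exact lt_max_of_lt_right (by linarith)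
      · rintro ⟨⟨h1, h2⟩, h3, h4⟩
        have h5 : q 0 < 7 - q 1 ∨ q 0 < q 1 - 5 := lt_max_iff.1 h4
        refine ⟨?_, ?_⟩
        · rw [mem_int]
          refine ⟨h3, ?_, h1, h2⟩
          rcases h5 with h | h <;> linarith
        · rcases h5 with h | h
          · left; linarith
          · right; linarith
    have h' : volume (S0 0) = ENNReal.ofReal 48 := by
      rw [h, area_between (a := 0) (b := 12) (f := fun _ => 0) (g := fun y => max (7 - y) (y - 5))
        (by norm_num) continuous_const (by fun_prop)]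
      · congr 1
        have i1 : ∫ y in (0:ℝ)..6, (max (7 - y) (y - 5) - 0) = 24 := by
          have : ∫ y in (0:ℝ)..6, (max (7 - y) (y - 5) - 0) = ∫ y in (0:ℝ)..6, (7 - y) := by
            apply intervalIntegral.integral_congr
            intro y hy
            rw [uIcc_of_le (by norm_num)] at hy
            have : y - 5 ≤ 7 - y := by linarith [hy.2]
            simp [max_eq_left this]
          rw [this, intervalIntegral.integral_sub (by simp) (by simp)]
          simp
          norm_num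
        have i2 : ∫ y in (6:ℝ)..12, (max (7 - y) (y - 5) - 0) = 24 := by
          have : ∫ y in (6:ℝ)..12, (max (7 - y) (y - 5) - 0) = ∫ y in (6:ℝ)..12, (y - 5) := by
            apply intervalIntegral.integral_congr
            intro y hy
            rw [uIcc_of_le (by norm_num)] at hy
            have : 7 - y ≤ y - 5 := by linarith [hy.1]
            simp [max_eq_right this]
          rw [this, intervalIntegral.integral_sub (by simp) (by simp)]
          simp
          norm_num
        have hc : Continuous (fun y : ℝ => max (7 - y) (y - 5) - 0) := by fun_prop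
        have := intervalIntegral.integral_add_adjacent_intervals
          (hc.intervalIntegrable (μ := volume) 0 6) (hc.intervalIntegrable (μ := volume) 6 12)
        rw [← this, i1, i2]
        norm_num
      · intro y hy
        simp only [Set.mem_Ioo] at hy
        rcases le_total y 6 with h6 | h6
        · exact le_max_of_le_left (by linarith)
        · exact le_max_of_le_right (by linarith)
    exact h'
  · have h : (S0 1) = {q : Plane | q 1 ∈ Ioo (0:ℝ) 6 ∧ (fun y => 7 - y) (q 1) < q 0 ∧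
        q 0 < (fun _ => (12:ℝ)) (q 1)} := by
      ext q
      constructor
      · rintro ⟨hq, h, h'⟩
        rw [mem_int] at hq
        exact ⟨⟨hq.2.2.1, h'⟩, by show 7 - q 1 < q 0; linarith, hq.2.1⟩
      · rintro ⟨⟨h1, h2⟩, h3, h4⟩
        have h3' : 7 - q 1 < q 0 := h3
        have h4' : q 0 < 12 := h4
        refine ⟨?_, by linarith, h2⟩
        rw [mem_int]
        refine ⟨?_, ?_, ?_, ?_⟩ <;> linarith
    have h' : volume (S0 1) = ENNReal.ofReal 48 := by
      rw [h, area_between (a := 0) (b := 6) (f := fun y => 7 - y) (g := fun _ => 12)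
        (by norm_num) (by fun_prop) continuous_const]
      · congr 1
        have : ∫ y in (0:ℝ)..6, ((12:ℝ) - (7 - y)) = ∫ y in (0:ℝ)..6, (5 + y) := by
          apply intervalIntegral.integral_congr
          intro y _
          ring
        rw [this, intervalIntegral.integral_add (by simp) (by simp)]
        simp
        norm_num
      · intro y hy
        simp only [Set.mem_Ioo] at hy
        linarith
    exact h'
  · have h : (S0 2) = {q : Plane | q 1 ∈ Ioo (6:ℝ) 12 ∧ (fun y => y - 5) (q 1) < q 0 ∧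
        q 0 < (fun _ => (12:ℝ)) (q 1)} := by
      ext q
      constructor
      · rintro ⟨hq, h, h'⟩
        rw [mem_int] at hq
        exact ⟨⟨h', hq.2.2.2⟩, by show q 1 - 5 < q 0; linarith, hq.2.1⟩
      · rintro ⟨⟨h1, h2⟩, h3, h4⟩
        have h3' : q 1 - 5 < q 0 := h3
        have h4' : q 0 < 12 := h4
        refine ⟨?_, by linarith, h1⟩
        rw [mem_int]
        refine ⟨?_, ?_, ?_, ?_⟩ <;> linarith
    have h' : volume (S0 2) = ENNReal.ofReal 48 := by
      rw [h, area_between (a := 6) (b := 12) (f := fun y => y - 5) (g := fun _ => 12)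
        (by norm_num) (by fun_prop) continuous_const]
      · congr 1
        have : ∫ y in (6:ℝ)..12, ((12:ℝ) - (y - 5)) = ∫ y in (6:ℝ)..12, (17 - y) := by
          apply intervalIntegral.integral_congr
          intro y _
          ring
        rw [this, intervalIntegral.integral_sub (by simp) (by simp)]
        simp
        norm_num
      · intro y hy
        simp only [Set.mem_Ioo] at hy
        linarith
    exact h'

theorem three_ray : IsThreeRayEquipartition sq P0 A0 S0 where
  source := by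
    rw [mem_int, P0]; simp; norm_num
  boundary := by
    intro i
    fin_cases i
    · exact mem_frontier_sq (by norm_num) (by norm_num)
    · exact mem_frontier_sq (by norm_num) (by norm_num)
    · exact mem_frontier_sq (by norm_num) (by norm_num)
  cuts :=
    { isOpen := S0_open
      isConnected := S0_connected
      disjoint := S0_disjoint
      iUnion_eq := S0_union
      area := S0_area }

/-! ### Lower bound for the total perimeter -/

theorem mem_frontier_S0 {j : Fin 3} {q : Plane} (hc : q ∈ closure (S0 j)) (h : q ∉ S0 j) :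
    q ∈ frontier (S0 j) := by
  rw [(S0_open j).frontier_eq]; exact ⟨hc, h⟩

theorem perim_S0_zero : ENNReal.ofReal (26 + 2 * 8.48) ≤ perimeter (S0 0) := by
  have h := le_perimeter (T := S0 0) ![pt 0 0, pt 7 0, pt 1 6, pt 7 12, pt 0 12]
    ![pt 7 0, pt 1 6, pt 7 12, pt 0 12, pt 0 0] ?_ ?_
  · refine le_trans ?_ h
    rw [Fin.sum_univ_five]
    have e0 : ENNReal.ofReal 7 ≤ edist (pt 0 0) (pt 7 0) := le_edist_pt (by norm_num)
    have e1 : ENNReal.ofReal 8.48 ≤ edist (pt 7 0) (pt 1 6) := le_edist_pt (by norm_num)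
    have e2 : ENNReal.ofReal 8.48 ≤ edist (pt 1 6) (pt 7 12) := le_edist_pt (by norm_num)
    have e3 : ENNReal.ofReal 7 ≤ edist (pt 7 12) (pt 0 12) := le_edist_pt (by norm_num)
    have e4 : ENNReal.ofReal 12 ≤ edist (pt 0 12) (pt 0 0) := le_edist_pt (by norm_num)
    have : ENNReal.ofReal (26 + 2 * 8.48) = ENNReal.ofReal 7 + ENNReal.ofReal 8.48 +
        ENNReal.ofReal 8.48 + ENNReal.ofReal 7 + ENNReal.ofReal 12 := by
      rw [← ENNReal.ofReal_add, ← ENNReal.ofReal_add, ← ENNReal.ofReal_add, ← ENNReal.ofReal_add] <;>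
        norm_num
    rw [this]
    exact add_le_add (add_le_add (add_le_add (add_le_add e0 e1) e2) e3) e4
  · intro i q hq
    fin_cases i <;> obtain ⟨t, h0, h1, e0, e1⟩ := openSeg_coords hq
    · refine mem_frontier_S0 (mem_closure_of_star (c := pt (1 / 2) 6) fun s hs0 hs1 =>
        S0_zero_star ⟨by linarith, by linarith, by linarith, by linarith⟩ (Or.inl (by linarith)) s hs0 hs1) ?_
      rintro ⟨hq, _⟩
      rw [mem_int] at hq
      linarith [hq.2.2.1]
    · refine mem_frontier_S0 (mem_closure_of_star (c := pt (1 / 2) 6) fun s hs0 hs1 =>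
        S0_zero_star ⟨by linarith, by linarith, by linarith, by linarith⟩ (Or.inl (by linarith)) s hs0 hs1) ?_
      rintro ⟨hq, h | h⟩ <;> linarith
    · refine mem_frontier_S0 (mem_closure_of_star (c := pt (1 / 2) 6) fun s hs0 hs1 =>
        S0_zero_star ⟨by linarith, by linarith, by linarith, by linarith⟩ (Or.inr (by linarith)) s hs0 hs1) ?_
      rintro ⟨hq, h | h⟩ <;> linarith
    · refine mem_frontier_S0 (mem_closure_of_star (c := pt (1 / 2) 6) fun s hs0 hs1 =>
        S0_zero_star ⟨by linarith, by linarith, by linarith, by linarith⟩ (Or.inr (by linarith)) s hs0 hs1) ?_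
      rintro ⟨hq, _⟩
      rw [mem_int] at hq
      linarith [hq.2.2.2]
    · rcases le_total (q 1) 6 with h6 | h6
      · refine mem_frontier_S0 (mem_closure_of_star (c := pt (1 / 2) 6) fun s hs0 hs1 =>
          S0_zero_star ⟨by linarith, by linarith, by linarith, by linarith⟩ (Or.inl (by linarith)) s hs0 hs1) ?_
        rintro ⟨hq, _⟩
        rw [mem_int] at hq
        linarith [hq.1]
      · refine mem_frontier_S0 (mem_closure_of_star (c := pt (1 / 2) 6) fun s hs0 hs1 =>
          S0_zero_star ⟨by linarith, by linarith, by linarith, by linarith⟩ (Or.inr (by linarith)) s hs0 hs1) ?_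
        rintro ⟨hq, _⟩
        rw [mem_int] at hq
        linarith [hq.1]
  · intro i j hij
    rw [Set.disjoint_left]
    intro q hq hq'
    fin_cases i <;> fin_cases j <;> first
      | exact hij rfl
      | (obtain ⟨t, h0, h1, e0, e1⟩ := openSeg_coords hq
         obtain ⟨t', h0', h1', e0', e1'⟩ := openSeg_coords hq'
         linarith)

theorem perim_S0_one : ENNReal.ofReal (22 + 8.48) ≤ perimeter (S0 1) := by
  have h := le_perimeter (T := S0 1) ![pt 1 6, pt 7 0, pt 12 0, pt 12 6]
    ![pt 7 0, pt 12 0, pt 12 6, pt 1 6] ?_ ?_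
  · refine le_trans ?_ h
    rw [Fin.sum_univ_four]
    have e0 : ENNReal.ofReal 8.48 ≤ edist (pt 1 6) (pt 7 0) := le_edist_pt (by norm_num)
    have e1 : ENNReal.ofReal 5 ≤ edist (pt 7 0) (pt 12 0) := le_edist_pt (by norm_num)
    have e2 : ENNReal.ofReal 6 ≤ edist (pt 12 0) (pt 12 6) := le_edist_pt (by norm_num)
    have e3 : ENNReal.ofReal 11 ≤ edist (pt 12 6) (pt 1 6) := le_edist_pt (by norm_num)
    have : ENNReal.ofReal (22 + 8.48) = ENNReal.ofReal 8.48 + ENNReal.ofReal 5 +
        ENNReal.ofReal 6 + ENNReal.ofReal 11 := by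
      rw [← ENNReal.ofReal_add, ← ENNReal.ofReal_add, ← ENNReal.ofReal_add] <;> norm_num
    rw [this]
    exact add_le_add (add_le_add (add_le_add e0 e1) e2) e3
  · intro i q hq
    fin_cases i <;> obtain ⟨t, h0, h1, e0, e1⟩ := openSeg_coords hq <;>
      refine mem_frontier_S0 (mem_closure_of_star (c := pt 10 3) fun s hs0 hs1 =>
        S0_one_star ⟨by linarith, by linarith, by linarith, by linarith⟩
          ⟨by linarith, by linarith⟩ s hs0 hs1) ?_
    · rintro ⟨hq, h, h'⟩; linarith
    · rintro ⟨hq, h, h'⟩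
      rw [mem_int] at hq
      linarith [hq.2.2.1]
    · rintro ⟨hq, h, h'⟩
      rw [mem_int] at hq
      linarith [hq.2.1]
    · rintro ⟨hq, h, h'⟩; linarith
  · intro i j hij
    rw [Set.disjoint_left]
    intro q hq hq'
    fin_cases i <;> fin_cases j <;> first
      | exact hij rfl
      | (obtain ⟨t, h0, h1, e0, e1⟩ := openSeg_coords hq
         obtain ⟨t', h0', h1', e0', e1'⟩ := openSeg_coords hq'
         linarith)

theorem perim_S0_two : ENNReal.ofReal (22 + 8.48) ≤ perimeter (S0 2) := by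
  have h := le_perimeter (T := S0 2) ![pt 1 6, pt 7 12, pt 12 12, pt 12 6]
    ![pt 7 12, pt 12 12, pt 12 6, pt 1 6] ?_ ?_
  · refine le_trans ?_ h
    rw [Fin.sum_univ_four]
    have e0 : ENNReal.ofReal 8.48 ≤ edist (pt 1 6) (pt 7 12) := le_edist_pt (by norm_num)
    have e1 : ENNReal.ofReal 5 ≤ edist (pt 7 12) (pt 12 12) := le_edist_pt (by norm_num)
    have e2 : ENNReal.ofReal 6 ≤ edist (pt 12 12) (pt 12 6) := le_edist_pt (by norm_num)
    have e3 : ENNReal.ofReal 11 ≤ edist (pt 12 6) (pt 1 6) := le_edist_pt (by norm_num)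
    have : ENNReal.ofReal (22 + 8.48) = ENNReal.ofReal 8.48 + ENNReal.ofReal 5 +
        ENNReal.ofReal 6 + ENNReal.ofReal 11 := by
      rw [← ENNReal.ofReal_add, ← ENNReal.ofReal_add, ← ENNReal.ofReal_add] <;> norm_num
    rw [this]
    exact add_le_add (add_le_add (add_le_add e0 e1) e2) e3
  · intro i q hq
    fin_cases i <;> obtain ⟨t, h0, h1, e0, e1⟩ := openSeg_coords hq <;>
      refine mem_frontier_S0 (mem_closure_of_star (c := pt 10 9) fun s hs0 hs1 =>
        S0_two_star ⟨by linarith, by linarith, by linarith, by linarith⟩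
          ⟨by linarith, by linarith⟩ s hs0 hs1) ?_
    · rintro ⟨hq, h, h'⟩; linarith
    · rintro ⟨hq, h, h'⟩
      rw [mem_int] at hq
      linarith [hq.2.2.2]
    · rintro ⟨hq, h, h'⟩
      rw [mem_int] at hq
      linarith [hq.2.1]
    · rintro ⟨hq, h, h'⟩; linarith
  · intro i j hij
    rw [Set.disjoint_left]
    intro q hq hq'
    fin_cases i <;> fin_cases j <;> first
      | exact hij rfl
      | (obtain ⟨t, h0, h1, e0, e1⟩ := openSeg_coords hq
         obtain ⟨t', h0', h1', e0', e1'⟩ := openSeg_coords hq'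
         linarith)

theorem total_S0 : ENNReal.ofReal 103.9 ≤ totalPerimeter S0 := by
  unfold totalPerimeter
  rw [Fin.sum_univ_three]
  refine le_trans ?_ (add_le_add (add_le_add perim_S0_zero perim_S0_one) perim_S0_two)
  rw [← ENNReal.ofReal_add (by norm_num) (by norm_num),
    ← ENNReal.ofReal_add (by norm_num) (by norm_num)]
  exact ENNReal.ofReal_le_ofReal (by norm_num)


/-! ### The two-ray equipartitions from the three boundary points -/

theorem two_ray_of_sectors {C : Set Plane} (hC : Convex ℝ C) {α β : ℝ} {X b0 b1 : Plane}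
    (hX : X ∈ frontier C) (hb0 : b0 ∈ frontier C) (hb1 : b1 ∈ frontier C)
    (e0 : openSegment ℝ X b0 ⊆ interior C) (e1 : openSegment ℝ X b1 ⊆ interior C)
    (hl : ∀ q ∈ interior C, 0 < lf α β (q - X)) (hcr : 0 < cr (b0 - X) (b1 - X))
    (hne : ∀ j, (sectors C X b0 b1 j).Nonempty)
    (harea : ∀ j, volume (sectors C X b0 b1 j) = volume C / 3) :
    IsTwoRayEquipartition C X ![b0, b1] (sectors C X b0 b1) where
  source := hX
  boundary := by
    intro i; fin_cases i
    · exact hb0
    · exact hb1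
  enters := by
    intro i; fin_cases i
    · exact e0
    · exact e1
  cuts :=
    { isOpen := sectors_open C X b0 b1
      isConnected := fun j => ⟨hne j, (sectors_convex hC X b0 b1 j).isPreconnected⟩
      disjoint := sectors_disjoint hl (lf_pos_of_enters hl e0) (lf_pos_of_enters hl e1) hcr
      iUnion_eq := by
        rw [sectors_union hC hX.1 hb0 hb1 hl (lf_pos_of_enters hl e0) (lf_pos_of_enters hl e1) hcr]
        congr 1
        ext q
        simp [Fin.exists_fin_two]
      area := harea }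

theorem openSegment_coords {a b c d : ℝ} {q : Plane} (h : q ∈ openSegment ℝ (pt a b) (pt c d)) :
    ∃ t : ℝ, 0 < t ∧ t < 1 ∧ q 0 = a + t * (c - a) ∧ q 1 = b + t * (d - b) := by
  obtain ⟨s, t, hs, ht, hst, rfl⟩ := h
  refine ⟨t, ht, by linarith, ?_, ?_⟩
  · have : s = 1 - t := by linarith
    subst this; simp; ring
  · have : s = 1 - t := by linarith
    subst this; simp; ring

theorem frontier_sub {T W : Set Plane} (hT : IsOpen T) (hW : IsClosed W) (h : T ⊆ W) :
    frontier T ⊆ W \ T := by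
  rw [hT.frontier_eq]
  exact sdiff_subset_sdiff_left (closure_minimal h hW)

/-! #### From `(12, 6)` -/

theorem sec_a0 : sectors sq (pt 12 6) (pt 0 10) (pt 0 2) 0 =
    {q : Plane | (0 < q 0 ∧ q 0 < 12 ∧ 0 < q 1 ∧ q 1 < 12) ∧ 30 < q 0 + 3 * q 1} := by
  ext q
  show q ∈ interior sq ∧ _ < (0:ℝ) ↔ _
  rw [mem_int]
  simp only [cr, PiLp.sub_apply, pt_zero, pt_one, mem_ofPred_eq]
  constructor
  · rintro ⟨h, h'⟩; exact ⟨h, by linarith⟩
  · rintro ⟨h, h'⟩; exact ⟨h, by linarith⟩

theorem sec_a1 : sectors sq (pt 12 6) (pt 0 10) (pt 0 2) 1 =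
    {q : Plane | (0 < q 0 ∧ q 0 < 12 ∧ 0 < q 1 ∧ q 1 < 12) ∧ q 0 + 3 * q 1 < 30 ∧
      q 0 + 6 < 3 * q 1} := by
  ext q
  show q ∈ interior sq ∧ (0:ℝ) < _ ∧ _ < (0:ℝ) ↔ _
  rw [mem_int]
  simp only [cr, PiLp.sub_apply, pt_zero, pt_one, mem_ofPred_eq]
  constructor
  · rintro ⟨h, h', h''⟩; exact ⟨h, by linarith, by linarith⟩
  · rintro ⟨h, h', h''⟩; exact ⟨h, by linarith, by linarith⟩

theorem sec_a2 : sectors sq (pt 12 6) (pt 0 10) (pt 0 2) 2 =
    {q : Plane | (0 < q 0 ∧ q 0 < 12 ∧ 0 < q 1 ∧ q 1 < 12) ∧ 3 * q 1 < q 0 + 6} := by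
  ext q
  show q ∈ interior sq ∧ (0:ℝ) < _ ↔ _
  rw [mem_int]
  simp only [cr, PiLp.sub_apply, pt_zero, pt_one, mem_ofPred_eq]
  constructor
  · rintro ⟨h, h'⟩; exact ⟨h, by linarith⟩
  · rintro ⟨h, h'⟩; exact ⟨h, by linarith⟩

/-! #### From `(7, 0)` -/

theorem sec_b0 : sectors sq (pt 7 0) (pt 9 12) (pt 1 12) 0 =
    {q : Plane | (0 < q 0 ∧ q 0 < 12 ∧ 0 < q 1 ∧ q 1 < 12) ∧ q 1 + 42 < 6 * q 0} := by
  ext q
  show q ∈ interior sq ∧ _ < (0:ℝ) ↔ _
  rw [mem_int]
  simp only [cr, PiLp.sub_apply, pt_zero, pt_one, mem_ofPred_eq]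
  constructor
  · rintro ⟨h, h'⟩; exact ⟨h, by linarith⟩
  · rintro ⟨h, h'⟩; exact ⟨h, by linarith⟩

theorem sec_b1 : sectors sq (pt 7 0) (pt 9 12) (pt 1 12) 1 =
    {q : Plane | (0 < q 0 ∧ q 0 < 12 ∧ 0 < q 1 ∧ q 1 < 12) ∧ 6 * q 0 < q 1 + 42 ∧
      14 < q 1 + 2 * q 0} := by
  ext q
  show q ∈ interior sq ∧ (0:ℝ) < _ ∧ _ < (0:ℝ) ↔ _
  rw [mem_int]
  simp only [cr, PiLp.sub_apply, pt_zero, pt_one, mem_ofPred_eq]
  constructor
  · rintro ⟨h, h', h''⟩; exact ⟨h, by linarith, by linarith⟩
  · rintro ⟨h, h', h''⟩; exact ⟨h, by linarith, by linarith⟩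

theorem sec_b2 : sectors sq (pt 7 0) (pt 9 12) (pt 1 12) 2 =
    {q : Plane | (0 < q 0 ∧ q 0 < 12 ∧ 0 < q 1 ∧ q 1 < 12) ∧ q 1 + 2 * q 0 < 14} := by
  ext q
  show q ∈ interior sq ∧ (0:ℝ) < _ ↔ _
  rw [mem_int]
  simp only [cr, PiLp.sub_apply, pt_zero, pt_one, mem_ofPred_eq]
  constructor
  · rintro ⟨h, h'⟩; exact ⟨h, by linarith⟩
  · rintro ⟨h, h'⟩; exact ⟨h, by linarith⟩

/-! #### From `(7, 12)` -/

theorem sec_c0 : sectors sq (pt 7 12) (pt 1 0) (pt 9 0) 0 =
    {q : Plane | (0 < q 0 ∧ q 0 < 12 ∧ 0 < q 1 ∧ q 1 < 12) ∧ 2 * q 0 < q 1 + 2} := by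
  ext q
  show q ∈ interior sq ∧ _ < (0:ℝ) ↔ _
  rw [mem_int]
  simp only [cr, PiLp.sub_apply, pt_zero, pt_one, mem_ofPred_eq]
  constructor
  · rintro ⟨h, h'⟩; exact ⟨h, by linarith⟩
  · rintro ⟨h, h'⟩; exact ⟨h, by linarith⟩

theorem sec_c1 : sectors sq (pt 7 12) (pt 1 0) (pt 9 0) 1 =
    {q : Plane | (0 < q 0 ∧ q 0 < 12 ∧ 0 < q 1 ∧ q 1 < 12) ∧ q 1 + 2 < 2 * q 0 ∧
      q 1 + 6 * q 0 < 54} := by
  ext q
  show q ∈ interior sq ∧ (0:ℝ) < _ ∧ _ < (0:ℝ) ↔ _
  rw [mem_int]
  simp only [cr, PiLp.sub_apply, pt_zero, pt_one, mem_ofPred_eq]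
  constructor
  · rintro ⟨h, h', h''⟩; exact ⟨h, by linarith, by linarith⟩
  · rintro ⟨h, h', h''⟩; exact ⟨h, by linarith, by linarith⟩

theorem sec_c2 : sectors sq (pt 7 12) (pt 1 0) (pt 9 0) 2 =
    {q : Plane | (0 < q 0 ∧ q 0 < 12 ∧ 0 < q 1 ∧ q 1 < 12) ∧ 54 < q 1 + 6 * q 0} := by
  ext q
  show q ∈ interior sq ∧ (0:ℝ) < _ ↔ _
  rw [mem_int]
  simp only [cr, PiLp.sub_apply, pt_zero, pt_one, mem_ofPred_eq]
  constructor
  · rintro ⟨h, h'⟩; exact ⟨h, by linarith⟩
  · rintro ⟨h, h'⟩; exact ⟨h, by linarith⟩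

/-- integral of an affine function -/
theorem integral_affine (a b u v : ℝ) :
    ∫ y in a..b, (u + v * y) = u * (b - a) + v * (b ^ 2 - a ^ 2) / 2 := by
  have h1 : Continuous fun y : ℝ => v * y := by fun_prop
  rw [intervalIntegral.integral_add intervalIntegrable_const (h1.intervalIntegrable _ _),
    intervalIntegral.integral_const_mul, integral_id]
  simp
  ring

/-- area of a region between two affine graphs over the second coordinate -/
theorem area_affine {a b u v u' v' r : ℝ} (hab : a ≤ b)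
    (ha : u + v * a ≤ u' + v' * a) (hb : u + v * b ≤ u' + v' * b)
    (hr : (u' - u) * (b - a) + (v' - v) * (b ^ 2 - a ^ 2) / 2 = r) :
    volume {q : Plane | q 1 ∈ Ioo a b ∧ u + v * q 1 < q 0 ∧ q 0 < u' + v' * q 1} =
      ENNReal.ofReal r := by
  have h := area_between (a := a) (b := b) (f := fun y => u + v * y) (g := fun y => u' + v' * y)
    hab (by fun_prop) (by fun_prop) ?_
  · rw [h]
    congr 1
    rw [← hr, ← integral_affine]
    apply intervalIntegral.integral_congr
    intro y _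
    ring
  · intro y hy
    obtain ⟨h1, h2⟩ := hy
    show u + v * y ≤ u' + v' * y
    nlinarith

theorem area_affine' {a b u v u' v' r : ℝ} (hab : a ≤ b)
    (ha : u + v * a ≤ u' + v' * a) (hb : u + v * b ≤ u' + v' * b)
    (hr : (u' - u) * (b - a) + (v' - v) * (b ^ 2 - a ^ 2) / 2 = r) :
    volume {q : Plane | q 0 ∈ Ioo a b ∧ u + v * q 0 < q 1 ∧ q 1 < u' + v' * q 0} =
      ENNReal.ofReal r := by
  have h := area_between' (a := a) (b := b) (f := fun y => u + v * y) (g := fun y => u' + v' * y)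
    hab (by fun_prop) (by fun_prop) ?_
  · rw [h]
    congr 1
    rw [← hr, ← integral_affine]
    apply intervalIntegral.integral_congr
    intro y _
    ring
  · intro y hy
    obtain ⟨h1, h2⟩ := hy
    show u + v * y ≤ u' + v' * y
    nlinarith

theorem area_a (j : Fin 3) :
    volume (sectors sq (pt 12 6) (pt 0 10) (pt 0 2) j) = volume sq / 3 := by
  rw [third_eq]
  fin_cases j
  · rw [show (⟨0, by norm_num⟩ : Fin 3) = 0 from rfl, sec_a0,
      ← area_affine' (a := 0) (b := 12) (u := 10) (v := -1 / 3) (u' := 12) (v' := 0) (r := 48)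
        (by norm_num) (by norm_num) (by norm_num) (by norm_num)]
    congr 1
    ext q
    constructor
    · rintro ⟨⟨h1, h2, h3, h4⟩, h5⟩
      exact ⟨⟨h1, h2⟩, by linarith, by linarith⟩
    · rintro ⟨⟨h1, h2⟩, h3, h4⟩
      exact ⟨⟨h1, h2, by linarith, by linarith⟩, by linarith⟩
  · rw [show (⟨1, by norm_num⟩ : Fin 3) = 1 from rfl, sec_a1,
      ← area_affine' (a := 0) (b := 12) (u := 2) (v := 1 / 3) (u' := 10) (v' := -1 / 3) (r := 48)
        (by norm_num) (by norm_num) (by norm_num) (by norm_num)]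
    congr 1
    ext q
    constructor
    · rintro ⟨⟨h1, h2, h3, h4⟩, h5, h6⟩
      exact ⟨⟨h1, h2⟩, by linarith, by linarith⟩
    · rintro ⟨⟨h1, h2⟩, h3, h4⟩
      exact ⟨⟨h1, h2, by linarith, by linarith⟩, by linarith, by linarith⟩
  · rw [show (⟨2, by norm_num⟩ : Fin 3) = 2 from rfl, sec_a2,
      ← area_affine' (a := 0) (b := 12) (u := 0) (v := 0) (u' := 2) (v' := 1 / 3) (r := 48)
        (by norm_num) (by norm_num) (by norm_num) (by norm_num)]
    congr 1
    ext q
    constructor
    · rintro ⟨⟨h1, h2, h3, h4⟩, h5⟩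
      exact ⟨⟨h1, h2⟩, by linarith, by linarith⟩
    · rintro ⟨⟨h1, h2⟩, h3, h4⟩
      exact ⟨⟨h1, h2, by linarith, by linarith⟩, by linarith⟩

theorem area_b (j : Fin 3) :
    volume (sectors sq (pt 7 0) (pt 9 12) (pt 1 12) j) = volume sq / 3 := by
  rw [third_eq]
  fin_cases j
  · rw [show (⟨0, by norm_num⟩ : Fin 3) = 0 from rfl, sec_b0,
      ← area_affine (a := 0) (b := 12) (u := 7) (v := 1 / 6) (u' := 12) (v' := 0) (r := 48)
        (by norm_num) (by norm_num) (by norm_num) (by norm_num)]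
    congr 1
    ext q
    constructor
    · rintro ⟨⟨h1, h2, h3, h4⟩, h5⟩
      exact ⟨⟨h3, h4⟩, by linarith, by linarith⟩
    · rintro ⟨⟨h1, h2⟩, h3, h4⟩
      exact ⟨⟨by linarith, by linarith, h1, h2⟩, by linarith⟩
  · rw [show (⟨1, by norm_num⟩ : Fin 3) = 1 from rfl, sec_b1,
      ← area_affine (a := 0) (b := 12) (u := 7) (v := -1 / 2) (u' := 7) (v' := 1 / 6) (r := 48)
        (by norm_num) (by norm_num) (by norm_num) (by norm_num)]
    congr 1
    ext q
    constructor
    · rintro ⟨⟨h1, h2, h3, h4⟩, h5, h6⟩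
      exact ⟨⟨h3, h4⟩, by linarith, by linarith⟩
    · rintro ⟨⟨h1, h2⟩, h3, h4⟩
      exact ⟨⟨by linarith, by linarith, h1, h2⟩, by linarith, by linarith⟩
  · rw [show (⟨2, by norm_num⟩ : Fin 3) = 2 from rfl, sec_b2,
      ← area_affine (a := 0) (b := 12) (u := 0) (v := 0) (u' := 7) (v' := -1 / 2) (r := 48)
        (by norm_num) (by norm_num) (by norm_num) (by norm_num)]
    congr 1
    ext q
    constructor
    · rintro ⟨⟨h1, h2, h3, h4⟩, h5⟩
      exact ⟨⟨h3, h4⟩, by linarith, by linarith⟩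
    · rintro ⟨⟨h1, h2⟩, h3, h4⟩
      exact ⟨⟨by linarith, by linarith, h1, h2⟩, by linarith⟩

theorem area_c (j : Fin 3) :
    volume (sectors sq (pt 7 12) (pt 1 0) (pt 9 0) j) = volume sq / 3 := by
  rw [third_eq]
  fin_cases j
  · rw [show (⟨0, by norm_num⟩ : Fin 3) = 0 from rfl, sec_c0,
      ← area_affine (a := 0) (b := 12) (u := 0) (v := 0) (u' := 1) (v' := 1 / 2) (r := 48)
        (by norm_num) (by norm_num) (by norm_num) (by norm_num)]
    congr 1
    ext q
    constructor
    · rintro ⟨⟨h1, h2, h3, h4⟩, h5⟩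
      exact ⟨⟨h3, h4⟩, by linarith, by linarith⟩
    · rintro ⟨⟨h1, h2⟩, h3, h4⟩
      exact ⟨⟨by linarith, by linarith, h1, h2⟩, by linarith⟩
  · rw [show (⟨1, by norm_num⟩ : Fin 3) = 1 from rfl, sec_c1,
      ← area_affine (a := 0) (b := 12) (u := 1) (v := 1 / 2) (u' := 9) (v' := -1 / 6) (r := 48)
        (by norm_num) (by norm_num) (by norm_num) (by norm_num)]
    congr 1
    ext q
    constructor
    · rintro ⟨⟨h1, h2, h3, h4⟩, h5, h6⟩
      exact ⟨⟨h3, h4⟩, by linarith, by linarith⟩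
    · rintro ⟨⟨h1, h2⟩, h3, h4⟩
      exact ⟨⟨by linarith, by linarith, h1, h2⟩, by linarith, by linarith⟩
  · rw [show (⟨2, by norm_num⟩ : Fin 3) = 2 from rfl, sec_c2,
      ← area_affine (a := 0) (b := 12) (u := 9) (v := -1 / 6) (u' := 12) (v' := 0) (r := 48)
        (by norm_num) (by norm_num) (by norm_num) (by norm_num)]
    congr 1
    ext q
    constructor
    · rintro ⟨⟨h1, h2, h3, h4⟩, h5⟩
      exact ⟨⟨h3, h4⟩, by linarith, by linarith⟩
    · rintro ⟨⟨h1, h2⟩, h3, h4⟩
      exact ⟨⟨by linarith, by linarith, h1, h2⟩, by linarith⟩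

theorem openSeg_sq {a b c d : ℝ} (h : ∀ t : ℝ, 0 < t → t < 1 →
    (0 < a + t * (c - a) ∧ a + t * (c - a) < 12 ∧ 0 < b + t * (d - b) ∧ b + t * (d - b) < 12)) :
    openSegment ℝ (pt a b) (pt c d) ⊆ interior sq := by
  intro q hq
  obtain ⟨t, h0, h1, e0, e1⟩ := openSegment_coords hq
  rw [mem_int, e0, e1]
  exact h t h0 h1

theorem lf_a : ∀ q ∈ interior sq, 0 < lf (-1) 0 (q - pt 12 6) := by
  intro q hq
  rw [mem_int] at hq
  simp [lf]
  linarith

theorem lf_b : ∀ q ∈ interior sq, 0 < lf 0 1 (q - pt 7 0) := by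
  intro q hq
  rw [mem_int] at hq
  simp [lf]
  linarith

theorem lf_c : ∀ q ∈ interior sq, 0 < lf 0 (-1) (q - pt 7 12) := by
  intro q hq
  rw [mem_int] at hq
  simp [lf]
  linarith

theorem two_ray_a : IsTwoRayEquipartition sq (pt 12 6) ![pt 0 10, pt 0 2]
    (sectors sq (pt 12 6) (pt 0 10) (pt 0 2)) := by
  refine two_ray_of_sectors sq_convex (mem_frontier_sq (by norm_num) (by norm_num))
    (mem_frontier_sq (by norm_num) (by norm_num)) (mem_frontier_sq (by norm_num) (by norm_num))
    (openSeg_sq fun t h0 h1 => ⟨by linarith, by linarith, by linarith, by linarith⟩)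
    (openSeg_sq fun t h0 h1 => ⟨by linarith, by linarith, by linarith, by linarith⟩)
    lf_a (by simp [cr]; norm_num) ?_ area_a
  intro j
  fin_cases j
  · exact ⟨pt 6 11, by
      rw [show (⟨0, by norm_num⟩ : Fin 3) = 0 from rfl, sec_a0]; simp; norm_num⟩
  · exact ⟨pt 2 6, by
      rw [show (⟨1, by norm_num⟩ : Fin 3) = 1 from rfl, sec_a1]; simp; norm_num⟩
  · exact ⟨pt 6 1, by
      rw [show (⟨2, by norm_num⟩ : Fin 3) = 2 from rfl, sec_a2]; simp; norm_num⟩

theorem two_ray_b : IsTwoRayEquipartition sq (pt 7 0) ![pt 9 12, pt 1 12]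
    (sectors sq (pt 7 0) (pt 9 12) (pt 1 12)) := by
  refine two_ray_of_sectors sq_convex (mem_frontier_sq (by norm_num) (by norm_num))
    (mem_frontier_sq (by norm_num) (by norm_num)) (mem_frontier_sq (by norm_num) (by norm_num))
    (openSeg_sq fun t h0 h1 => ⟨by linarith, by linarith, by linarith, by linarith⟩)
    (openSeg_sq fun t h0 h1 => ⟨by linarith, by linarith, by linarith, by linarith⟩)
    lf_b (by simp [cr]; norm_num) ?_ area_b
  intro j
  fin_cases j
  · exact ⟨pt 11 6, by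
      rw [show (⟨0, by norm_num⟩ : Fin 3) = 0 from rfl, sec_b0]; simp; norm_num⟩
  · exact ⟨pt 6 11, by
      rw [show (⟨1, by norm_num⟩ : Fin 3) = 1 from rfl, sec_b1]; simp; norm_num⟩
  · exact ⟨pt 1 1, by
      rw [show (⟨2, by norm_num⟩ : Fin 3) = 2 from rfl, sec_b2]; simp; norm_num⟩

theorem two_ray_c : IsTwoRayEquipartition sq (pt 7 12) ![pt 1 0, pt 9 0]
    (sectors sq (pt 7 12) (pt 1 0) (pt 9 0)) := by
  refine two_ray_of_sectors sq_convex (mem_frontier_sq (by norm_num) (by norm_num))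
    (mem_frontier_sq (by norm_num) (by norm_num)) (mem_frontier_sq (by norm_num) (by norm_num))
    (openSeg_sq fun t h0 h1 => ⟨by linarith, by linarith, by linarith, by linarith⟩)
    (openSeg_sq fun t h0 h1 => ⟨by linarith, by linarith, by linarith, by linarith⟩)
    lf_c (by simp [cr]; norm_num) ?_ area_c
  intro j
  fin_cases j
  · exact ⟨pt 1 11, by
      rw [show (⟨0, by norm_num⟩ : Fin 3) = 0 from rfl, sec_c0]; simp; norm_num⟩
  · exact ⟨pt 6 1, by
      rw [show (⟨1, by norm_num⟩ : Fin 3) = 1 from rfl, sec_c1]; simp; norm_num⟩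
  · exact ⟨pt 11 6, by
      rw [show (⟨2, by norm_num⟩ : Fin 3) = 2 from rfl, sec_c2]; simp; norm_num⟩


/-! ### Upper bounds for the perimeters of the pieces of the two-ray equipartitions -/

theorem closed_aff (c0 c1 r : ℝ) : IsClosed {q : Plane | c0 * q 0 + c1 * q 1 ≤ r} := by
  have h : Continuous fun q : Plane => c0 * q 0 + c1 * q 1 := by fun_prop
  exact isClosed_le h continuous_const

theorem perim_a0 : perimeter (sectors sq (pt 12 6) (pt 0 10) (pt 0 2) 0) ≤
    ENNReal.ofReal (6 + 12 + 2 + 12.65) := by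
  refine (perimeter_le ![pt 12 6, pt 12 12, pt 0 12, pt 0 10]
    ![pt 12 12, pt 0 12, pt 0 10, pt 12 6] ?_).trans ?_
  · refine (frontier_sub (sectors_open _ _ _ _ _) (sq_closed.inter (closed_aff (-1) (-3) (-30))) ?_).trans ?_
    · rw [sec_a0]
      rintro q ⟨⟨h1, h2, h3, h4⟩, h5⟩
      refine ⟨⟨h1.le, h2.le, h3.le, h4.le⟩, ?_⟩
      show (-1) * q 0 + (-3) * q 1 ≤ -30
      linarith
    · rw [sec_a0]
      rintro q ⟨⟨⟨h1, h2, h3, h4⟩, h5⟩, hn⟩
      replace h5 : (-1) * q 0 + (-3) * q 1 ≤ -30 := h5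
      have hn' : ¬ ((0 < q 0 ∧ q 0 < 12 ∧ 0 < q 1 ∧ q 1 < 12) ∧ 30 < q 0 + 3 * q 1) := hn
      rw [mem_iUnion]
      by_cases c1 : 30 < q 0 + 3 * q 1
      · rcases eq_or_lt_of_le h1 with c2 | c2
        · exact ⟨2, mem_seg ((12 - q 1) / 2) (by linarith) (by linarith) (by linarith) (by linarith)⟩
        · rcases eq_or_lt_of_le h2 with c3 | c3
          · exact ⟨0, mem_seg ((q 1 - 6) / 6) (by linarith) (by linarith) (by linarith) (by linarith)⟩
          · rcases eq_or_lt_of_le h4 with c4 | c4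
            · exact ⟨1, mem_seg ((12 - q 0) / 12) (by linarith) (by linarith) (by linarith) (by linarith)⟩
            · exact absurd ⟨⟨c2, c3, by linarith, c4⟩, c1⟩ hn'
      · exact ⟨3, mem_seg (q 0 / 12) (by linarith) (by linarith) (by linarith) (by linarith)⟩
  · rw [Fin.sum_univ_four, ENNReal.ofReal_add (by norm_num) (by norm_num),
      ENNReal.ofReal_add (by norm_num) (by norm_num), ENNReal.ofReal_add (by norm_num) (by norm_num)]
    exact add_le_add (add_le_add (add_le_add (edist_pt_le (by norm_num) (by norm_num))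
      (edist_pt_le (by norm_num) (by norm_num))) (edist_pt_le (by norm_num) (by norm_num)))
      (edist_pt_le (by norm_num) (by norm_num))

theorem perim_a1 : perimeter (sectors sq (pt 12 6) (pt 0 10) (pt 0 2) 1) ≤
    ENNReal.ofReal (12.65 + 8 + 12.65) := by
  refine (perimeter_le ![pt 12 6, pt 0 10, pt 0 2]
    ![pt 0 10, pt 0 2, pt 12 6] ?_).trans ?_
  · refine (frontier_sub (sectors_open _ _ _ _ _)
      (sq_closed.inter ((closed_aff 1 3 30).inter (closed_aff 1 (-3) (-6)))) ?_).trans ?_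
    · rw [sec_a1]
      rintro q ⟨⟨h1, h2, h3, h4⟩, h5, h6⟩
      refine ⟨⟨h1.le, h2.le, h3.le, h4.le⟩, ?_, ?_⟩
      · show 1 * q 0 + 3 * q 1 ≤ 30
        linarith
      · show 1 * q 0 + (-3) * q 1 ≤ -6
        linarith
    · rw [sec_a1]
      rintro q ⟨⟨⟨h1, h2, h3, h4⟩, h5, h6⟩, hn⟩
      replace h5 : 1 * q 0 + 3 * q 1 ≤ 30 := h5
      replace h6 : 1 * q 0 + (-3) * q 1 ≤ -6 := h6
      have hn' : ¬ ((0 < q 0 ∧ q 0 < 12 ∧ 0 < q 1 ∧ q 1 < 12) ∧ q 0 + 3 * q 1 < 30 ∧
        q 0 + 6 < 3 * q 1) := hn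
      rw [mem_iUnion]
      by_cases c1 : q 0 + 3 * q 1 < 30
      · by_cases c2 : q 0 + 6 < 3 * q 1
        · rcases eq_or_lt_of_le h1 with c3 | c3
          · exact ⟨1, mem_seg ((10 - q 1) / 8) (by linarith) (by linarith) (by linarith) (by linarith)⟩
          · exact absurd ⟨⟨c3, by linarith, by linarith, by linarith⟩, c1, c2⟩ hn'
        · exact ⟨2, mem_seg (q 0 / 12) (by linarith) (by linarith) (by linarith) (by linarith)⟩
      · exact ⟨0, mem_seg ((12 - q 0) / 12) (by linarith) (by linarith) (by linarith) (by linarith)⟩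
  · rw [Fin.sum_univ_three, ENNReal.ofReal_add (by norm_num) (by norm_num),
      ENNReal.ofReal_add (by norm_num) (by norm_num)]
    exact add_le_add (add_le_add (edist_pt_le (by norm_num) (by norm_num))
      (edist_pt_le (by norm_num) (by norm_num))) (edist_pt_le (by norm_num) (by norm_num))

theorem perim_a2 : perimeter (sectors sq (pt 12 6) (pt 0 10) (pt 0 2) 2) ≤
    ENNReal.ofReal (6 + 12 + 2 + 12.65) := by
  refine (perimeter_le ![pt 12 6, pt 12 0, pt 0 0, pt 0 2]
    ![pt 12 0, pt 0 0, pt 0 2, pt 12 6] ?_).trans ?_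
  · refine (frontier_sub (sectors_open _ _ _ _ _) (sq_closed.inter (closed_aff (-1) 3 6)) ?_).trans ?_
    · rw [sec_a2]
      rintro q ⟨⟨h1, h2, h3, h4⟩, h5⟩
      refine ⟨⟨h1.le, h2.le, h3.le, h4.le⟩, ?_⟩
      show (-1) * q 0 + 3 * q 1 ≤ 6
      linarith
    · rw [sec_a2]
      rintro q ⟨⟨⟨h1, h2, h3, h4⟩, h5⟩, hn⟩
      replace h5 : (-1) * q 0 + 3 * q 1 ≤ 6 := h5
      have hn' : ¬ ((0 < q 0 ∧ q 0 < 12 ∧ 0 < q 1 ∧ q 1 < 12) ∧ 3 * q 1 < q 0 + 6) := hn
      rw [mem_iUnion]
      by_cases c1 : 3 * q 1 < q 0 + 6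
      · rcases eq_or_lt_of_le h1 with c2 | c2
        · exact ⟨2, mem_seg (q 1 / 2) (by linarith) (by linarith) (by linarith) (by linarith)⟩
        · rcases eq_or_lt_of_le h2 with c3 | c3
          · exact ⟨0, mem_seg ((6 - q 1) / 6) (by linarith) (by linarith) (by linarith) (by linarith)⟩
          · rcases eq_or_lt_of_le h3 with c4 | c4
            · exact ⟨1, mem_seg ((12 - q 0) / 12) (by linarith) (by linarith) (by linarith) (by linarith)⟩
            · exact absurd ⟨⟨c2, c3, c4, by linarith⟩, c1⟩ hn'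
      · exact ⟨3, mem_seg (q 0 / 12) (by linarith) (by linarith) (by linarith) (by linarith)⟩
  · rw [Fin.sum_univ_four, ENNReal.ofReal_add (by norm_num) (by norm_num),
      ENNReal.ofReal_add (by norm_num) (by norm_num), ENNReal.ofReal_add (by norm_num) (by norm_num)]
    exact add_le_add (add_le_add (add_le_add (edist_pt_le (by norm_num) (by norm_num))
      (edist_pt_le (by norm_num) (by norm_num))) (edist_pt_le (by norm_num) (by norm_num)))
      (edist_pt_le (by norm_num) (by norm_num))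

theorem perim_b0 : perimeter (sectors sq (pt 7 0) (pt 9 12) (pt 1 12) 0) ≤
    ENNReal.ofReal (5 + 12 + 3 + 12.17) := by
  refine (perimeter_le ![pt 7 0, pt 12 0, pt 12 12, pt 9 12]
    ![pt 12 0, pt 12 12, pt 9 12, pt 7 0] ?_).trans ?_
  · refine (frontier_sub (sectors_open _ _ _ _ _) (sq_closed.inter (closed_aff (-6) 1 (-42))) ?_).trans ?_
    · rw [sec_b0]
      rintro q ⟨⟨h1, h2, h3, h4⟩, h5⟩
      refine ⟨⟨h1.le, h2.le, h3.le, h4.le⟩, ?_⟩
      show (-6) * q 0 + 1 * q 1 ≤ -42
      linarith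
    · rw [sec_b0]
      rintro q ⟨⟨⟨h1, h2, h3, h4⟩, h5⟩, hn⟩
      replace h5 : (-6) * q 0 + 1 * q 1 ≤ -42 := h5
      have hn' : ¬ ((0 < q 0 ∧ q 0 < 12 ∧ 0 < q 1 ∧ q 1 < 12) ∧ q 1 + 42 < 6 * q 0) := hn
      rw [mem_iUnion]
      by_cases c1 : q 1 + 42 < 6 * q 0
      · rcases eq_or_lt_of_le h2 with c2 | c2
        · exact ⟨1, mem_seg (q 1 / 12) (by linarith) (by linarith) (by linarith) (by linarith)⟩
        · rcases eq_or_lt_of_le h3 with c3 | c3
          · exact ⟨0, mem_seg ((q 0 - 7) / 5) (by linarith) (by linarith) (by linarith) (by linarith)⟩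
          · rcases eq_or_lt_of_le h4 with c4 | c4
            · exact ⟨2, mem_seg ((12 - q 0) / 3) (by linarith) (by linarith) (by linarith) (by linarith)⟩
            · exact absurd ⟨⟨by linarith, c2, c3, c4⟩, c1⟩ hn'
      · exact ⟨3, mem_seg ((12 - q 1) / 12) (by linarith) (by linarith) (by linarith) (by linarith)⟩
  · rw [Fin.sum_univ_four, ENNReal.ofReal_add (by norm_num) (by norm_num),
      ENNReal.ofReal_add (by norm_num) (by norm_num), ENNReal.ofReal_add (by norm_num) (by norm_num)]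
    exact add_le_add (add_le_add (add_le_add (edist_pt_le (by norm_num) (by norm_num))
      (edist_pt_le (by norm_num) (by norm_num))) (edist_pt_le (by norm_num) (by norm_num)))
      (edist_pt_le (by norm_num) (by norm_num))

theorem perim_b1 : perimeter (sectors sq (pt 7 0) (pt 9 12) (pt 1 12) 1) ≤
    ENNReal.ofReal (12.17 + 8 + 13.42) := by
  refine (perimeter_le ![pt 7 0, pt 9 12, pt 1 12]
    ![pt 9 12, pt 1 12, pt 7 0] ?_).trans ?_
  · refine (frontier_sub (sectors_open _ _ _ _ _)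
      (sq_closed.inter ((closed_aff 6 (-1) 42).inter (closed_aff (-2) (-1) (-14)))) ?_).trans ?_
    · rw [sec_b1]
      rintro q ⟨⟨h1, h2, h3, h4⟩, h5, h6⟩
      refine ⟨⟨h1.le, h2.le, h3.le, h4.le⟩, ?_, ?_⟩
      · show 6 * q 0 + (-1) * q 1 ≤ 42
        linarith
      · show (-2) * q 0 + (-1) * q 1 ≤ -14
        linarith
    · rw [sec_b1]
      rintro q ⟨⟨⟨h1, h2, h3, h4⟩, h5, h6⟩, hn⟩
      replace h5 : 6 * q 0 + (-1) * q 1 ≤ 42 := h5
      replace h6 : (-2) * q 0 + (-1) * q 1 ≤ -14 := h6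
      have hn' : ¬ ((0 < q 0 ∧ q 0 < 12 ∧ 0 < q 1 ∧ q 1 < 12) ∧ 6 * q 0 < q 1 + 42 ∧
        14 < q 1 + 2 * q 0) := hn
      rw [mem_iUnion]
      by_cases c1 : 6 * q 0 < q 1 + 42
      · by_cases c2 : 14 < q 1 + 2 * q 0
        · rcases eq_or_lt_of_le h4 with c3 | c3
          · exact ⟨1, mem_seg ((9 - q 0) / 8) (by linarith) (by linarith) (by linarith) (by linarith)⟩
          · exact absurd ⟨⟨by linarith, by linarith, by linarith, by linarith⟩, c1, c2⟩ hn'
        · exact ⟨2, mem_seg ((12 - q 1) / 12) (by linarith) (by linarith) (by linarith) (by linarith)⟩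
      · exact ⟨0, mem_seg (q 1 / 12) (by linarith) (by linarith) (by linarith) (by linarith)⟩
  · rw [Fin.sum_univ_three, ENNReal.ofReal_add (by norm_num) (by norm_num),
      ENNReal.ofReal_add (by norm_num) (by norm_num)]
    exact add_le_add (add_le_add (edist_pt_le (by norm_num) (by norm_num))
      (edist_pt_le (by norm_num) (by norm_num))) (edist_pt_le (by norm_num) (by norm_num))

theorem perim_b2 : perimeter (sectors sq (pt 7 0) (pt 9 12) (pt 1 12) 2) ≤
    ENNReal.ofReal (7 + 12 + 1 + 13.42) := by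
  refine (perimeter_le ![pt 7 0, pt 0 0, pt 0 12, pt 1 12]
    ![pt 0 0, pt 0 12, pt 1 12, pt 7 0] ?_).trans ?_
  · refine (frontier_sub (sectors_open _ _ _ _ _) (sq_closed.inter (closed_aff 2 1 14)) ?_).trans ?_
    · rw [sec_b2]
      rintro q ⟨⟨h1, h2, h3, h4⟩, h5⟩
      refine ⟨⟨h1.le, h2.le, h3.le, h4.le⟩, ?_⟩
      show 2 * q 0 + 1 * q 1 ≤ 14
      linarith
    · rw [sec_b2]
      rintro q ⟨⟨⟨h1, h2, h3, h4⟩, h5⟩, hn⟩
      replace h5 : 2 * q 0 + 1 * q 1 ≤ 14 := h5
      have hn' : ¬ ((0 < q 0 ∧ q 0 < 12 ∧ 0 < q 1 ∧ q 1 < 12) ∧ q 1 + 2 * q 0 < 14) := hn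
      rw [mem_iUnion]
      by_cases c1 : q 1 + 2 * q 0 < 14
      · rcases eq_or_lt_of_le h1 with c2 | c2
        · exact ⟨1, mem_seg (q 1 / 12) (by linarith) (by linarith) (by linarith) (by linarith)⟩
        · rcases eq_or_lt_of_le h3 with c3 | c3
          · exact ⟨0, mem_seg ((7 - q 0) / 7) (by linarith) (by linarith) (by linarith) (by linarith)⟩
          · rcases eq_or_lt_of_le h4 with c4 | c4
            · exact ⟨2, mem_seg (q 0) (by linarith) (by linarith) (by linarith) (by linarith)⟩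
            · exact absurd ⟨⟨c2, by linarith, c3, c4⟩, c1⟩ hn'
      · exact ⟨3, mem_seg ((12 - q 1) / 12) (by linarith) (by linarith) (by linarith) (by linarith)⟩
  · rw [Fin.sum_univ_four, ENNReal.ofReal_add (by norm_num) (by norm_num),
      ENNReal.ofReal_add (by norm_num) (by norm_num), ENNReal.ofReal_add (by norm_num) (by norm_num)]
    exact add_le_add (add_le_add (add_le_add (edist_pt_le (by norm_num) (by norm_num))
      (edist_pt_le (by norm_num) (by norm_num))) (edist_pt_le (by norm_num) (by norm_num)))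
      (edist_pt_le (by norm_num) (by norm_num))

theorem perim_c0 : perimeter (sectors sq (pt 7 12) (pt 1 0) (pt 9 0) 0) ≤
    ENNReal.ofReal (7 + 12 + 1 + 13.42) := by
  refine (perimeter_le ![pt 7 12, pt 0 12, pt 0 0, pt 1 0]
    ![pt 0 12, pt 0 0, pt 1 0, pt 7 12] ?_).trans ?_
  · refine (frontier_sub (sectors_open _ _ _ _ _) (sq_closed.inter (closed_aff 2 (-1) 2)) ?_).trans ?_
    · rw [sec_c0]
      rintro q ⟨⟨h1, h2, h3, h4⟩, h5⟩
      refine ⟨⟨h1.le, h2.le, h3.le, h4.le⟩, ?_⟩
      show 2 * q 0 + (-1) * q 1 ≤ 2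
      linarith
    · rw [sec_c0]
      rintro q ⟨⟨⟨h1, h2, h3, h4⟩, h5⟩, hn⟩
      replace h5 : 2 * q 0 + (-1) * q 1 ≤ 2 := h5
      have hn' : ¬ ((0 < q 0 ∧ q 0 < 12 ∧ 0 < q 1 ∧ q 1 < 12) ∧ 2 * q 0 < q 1 + 2) := hn
      rw [mem_iUnion]
      by_cases c1 : 2 * q 0 < q 1 + 2
      · rcases eq_or_lt_of_le h1 with c2 | c2
        · exact ⟨1, mem_seg ((12 - q 1) / 12) (by linarith) (by linarith) (by linarith) (by linarith)⟩
        · rcases eq_or_lt_of_le h3 with c3 | c3
          · exact ⟨2, mem_seg (q 0) (by linarith) (by linarith) (by linarith) (by linarith)⟩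
          · rcases eq_or_lt_of_le h4 with c4 | c4
            · exact ⟨0, mem_seg ((7 - q 0) / 7) (by linarith) (by linarith) (by linarith) (by linarith)⟩
            · exact absurd ⟨⟨c2, by linarith, c3, c4⟩, c1⟩ hn'
      · exact ⟨3, mem_seg (q 1 / 12) (by linarith) (by linarith) (by linarith) (by linarith)⟩
  · rw [Fin.sum_univ_four, ENNReal.ofReal_add (by norm_num) (by norm_num),
      ENNReal.ofReal_add (by norm_num) (by norm_num), ENNReal.ofReal_add (by norm_num) (by norm_num)]
    exact add_le_add (add_le_add (add_le_add (edist_pt_le (by norm_num) (by norm_num))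
      (edist_pt_le (by norm_num) (by norm_num))) (edist_pt_le (by norm_num) (by norm_num)))
      (edist_pt_le (by norm_num) (by norm_num))

theorem perim_c1 : perimeter (sectors sq (pt 7 12) (pt 1 0) (pt 9 0) 1) ≤
    ENNReal.ofReal (13.42 + 8 + 12.17) := by
  refine (perimeter_le ![pt 7 12, pt 1 0, pt 9 0]
    ![pt 1 0, pt 9 0, pt 7 12] ?_).trans ?_
  · refine (frontier_sub (sectors_open _ _ _ _ _)
      (sq_closed.inter ((closed_aff (-2) 1 (-2)).inter (closed_aff 6 1 54))) ?_).trans ?_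
    · rw [sec_c1]
      rintro q ⟨⟨h1, h2, h3, h4⟩, h5, h6⟩
      refine ⟨⟨h1.le, h2.le, h3.le, h4.le⟩, ?_, ?_⟩
      · show (-2) * q 0 + 1 * q 1 ≤ -2
        linarith
      · show 6 * q 0 + 1 * q 1 ≤ 54
        linarith
    · rw [sec_c1]
      rintro q ⟨⟨⟨h1, h2, h3, h4⟩, h5, h6⟩, hn⟩
      replace h5 : (-2) * q 0 + 1 * q 1 ≤ -2 := h5
      replace h6 : 6 * q 0 + 1 * q 1 ≤ 54 := h6
      have hn' : ¬ ((0 < q 0 ∧ q 0 < 12 ∧ 0 < q 1 ∧ q 1 < 12) ∧ q 1 + 2 < 2 * q 0 ∧
        q 1 + 6 * q 0 < 54) := hn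
      rw [mem_iUnion]
      by_cases c1 : q 1 + 2 < 2 * q 0
      · by_cases c2 : q 1 + 6 * q 0 < 54
        · rcases eq_or_lt_of_le h3 with c3 | c3
          · exact ⟨1, mem_seg ((q 0 - 1) / 8) (by linarith) (by linarith) (by linarith) (by linarith)⟩
          · exact absurd ⟨⟨by linarith, by linarith, by linarith, by linarith⟩, c1, c2⟩ hn'
        · exact ⟨2, mem_seg (q 1 / 12) (by linarith) (by linarith) (by linarith) (by linarith)⟩
      · exact ⟨0, mem_seg ((12 - q 1) / 12) (by linarith) (by linarith) (by linarith) (by linarith)⟩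
  · rw [Fin.sum_univ_three, ENNReal.ofReal_add (by norm_num) (by norm_num),
      ENNReal.ofReal_add (by norm_num) (by norm_num)]
    exact add_le_add (add_le_add (edist_pt_le (by norm_num) (by norm_num))
      (edist_pt_le (by norm_num) (by norm_num))) (edist_pt_le (by norm_num) (by norm_num))

theorem perim_c2 : perimeter (sectors sq (pt 7 12) (pt 1 0) (pt 9 0) 2) ≤
    ENNReal.ofReal (5 + 12 + 3 + 12.17) := by
  refine (perimeter_le ![pt 7 12, pt 12 12, pt 12 0, pt 9 0]
    ![pt 12 12, pt 12 0, pt 9 0, pt 7 12] ?_).trans ?_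
  · refine (frontier_sub (sectors_open _ _ _ _ _) (sq_closed.inter (closed_aff (-6) (-1) (-54))) ?_).trans ?_
    · rw [sec_c2]
      rintro q ⟨⟨h1, h2, h3, h4⟩, h5⟩
      refine ⟨⟨h1.le, h2.le, h3.le, h4.le⟩, ?_⟩
      show (-6) * q 0 + (-1) * q 1 ≤ -54
      linarith
    · rw [sec_c2]
      rintro q ⟨⟨⟨h1, h2, h3, h4⟩, h5⟩, hn⟩
      replace h5 : (-6) * q 0 + (-1) * q 1 ≤ -54 := h5
      have hn' : ¬ ((0 < q 0 ∧ q 0 < 12 ∧ 0 < q 1 ∧ q 1 < 12) ∧ 54 < q 1 + 6 * q 0) := hn
      rw [mem_iUnion]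
      by_cases c1 : 54 < q 1 + 6 * q 0
      · rcases eq_or_lt_of_le h2 with c2 | c2
        · exact ⟨1, mem_seg ((12 - q 1) / 12) (by linarith) (by linarith) (by linarith) (by linarith)⟩
        · rcases eq_or_lt_of_le h3 with c3 | c3
          · exact ⟨2, mem_seg ((12 - q 0) / 3) (by linarith) (by linarith) (by linarith) (by linarith)⟩
          · rcases eq_or_lt_of_le h4 with c4 | c4
            · exact ⟨0, mem_seg ((q 0 - 7) / 5) (by linarith) (by linarith) (by linarith) (by linarith)⟩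
            · exact absurd ⟨⟨by linarith, c2, c3, c4⟩, c1⟩ hn'
      · exact ⟨3, mem_seg (q 1 / 12) (by linarith) (by linarith) (by linarith) (by linarith)⟩
  · rw [Fin.sum_univ_four, ENNReal.ofReal_add (by norm_num) (by norm_num),
      ENNReal.ofReal_add (by norm_num) (by norm_num), ENNReal.ofReal_add (by norm_num) (by norm_num)]
    exact add_le_add (add_le_add (add_le_add (edist_pt_le (by norm_num) (by norm_num))
      (edist_pt_le (by norm_num) (by norm_num))) (edist_pt_le (by norm_num) (by norm_num)))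
      (edist_pt_le (by norm_num) (by norm_num))

theorem ofReal_sum3 {a b c d : ℝ} (ha : 0 ≤ a) (hb : 0 ≤ b) (hc : 0 ≤ c) (h : a + b + c ≤ d) :
    ENNReal.ofReal a + ENNReal.ofReal b + ENNReal.ofReal c ≤ ENNReal.ofReal d := by
  rw [← ENNReal.ofReal_add ha hb, ← ENNReal.ofReal_add (by linarith) hc]
  exact ENNReal.ofReal_le_ofReal h

theorem total_a : totalPerimeter (sectors sq (pt 12 6) (pt 0 10) (pt 0 2)) ≤ ENNReal.ofReal 99.2 := by
  unfold totalPerimeter
  rw [Fin.sum_univ_three]
  refine (add_le_add (add_le_add perim_a0 perim_a1) perim_a2).trans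
    (ofReal_sum3 (by norm_num) (by norm_num) (by norm_num) (by norm_num))

theorem total_b : totalPerimeter (sectors sq (pt 7 0) (pt 9 12) (pt 1 12)) ≤ ENNReal.ofReal 99.2 := by
  unfold totalPerimeter
  rw [Fin.sum_univ_three]
  refine (add_le_add (add_le_add perim_b0 perim_b1) perim_b2).trans
    (ofReal_sum3 (by norm_num) (by norm_num) (by norm_num) (by norm_num))

theorem total_c : totalPerimeter (sectors sq (pt 7 12) (pt 1 0) (pt 9 0)) ≤ ENNReal.ofReal 99.2 := by
  unfold totalPerimeter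
  rw [Fin.sum_univ_three]
  refine (add_le_add (add_le_add perim_c0 perim_c1) perim_c2).trans
    (ofReal_sum3 (by norm_num) (by norm_num) (by norm_num) (by norm_num))

theorem totalPerimeter_perm {S S' : Fin 3 → Set Plane} {σ : Equiv.Perm (Fin 3)}
    (h : ∀ j, S j = S' (σ j)) : totalPerimeter S = totalPerimeter S' := by
  unfold totalPerimeter
  rw [← Equiv.sum_comp σ (fun j => perimeter (S' j))]
  exact Finset.sum_congr rfl fun j _ => by rw [h j]

theorem conclude {α β : ℝ} {X : Plane} {B : Fin 2 → Plane} {S : Fin 3 → Set Plane}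
    (hl : ∀ q ∈ interior sq, 0 < lf α β (q - X)) (h : IsTwoRayEquipartition sq X B S)
    (ht : totalPerimeter S ≤ ENNReal.ofReal 99.2) :
    (∃ B S, IsTwoRayEquipartition sq X B S) ∧
      ∀ B S, IsTwoRayEquipartition sq X B S → totalPerimeter S < totalPerimeter S0 := by
  refine ⟨⟨B, S, h⟩, fun B' S' h' => ?_⟩
  obtain ⟨σ, hσ⟩ := two_ray_unique sq_convex (by rw [sq_volume]; norm_num) hl h' h
  rw [totalPerimeter_perm hσ]
  refine lt_of_le_of_lt ht (lt_of_lt_of_le ?_ total_S0)
  exact (ENNReal.ofReal_lt_ofReal_iff (by norm_num)).2 (by norm_num)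

/-- There are a convex region `C`, an interior point `P` of `C` and a three-ray equipartition of
`C` from `P` with boundary points `A 0`, `A 1`, `A 2` such that for every `i` the two-ray
equipartition from `A i` exists and has total perimeter strictly smaller than the total
perimeter of the three-ray equipartition. This refutes the assertion of the problem. -/
theorem result :
    ∃ (C : Set Plane) (P : Plane) (A : Fin 3 → Plane) (S : Fin 3 → Set Plane),
      IsConvexRegion C ∧ IsThreeRayEquipartition C P A S ∧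
      ∀ i, (∃ B S', IsTwoRayEquipartition C (A i) B S') ∧
        ∀ B S', IsTwoRayEquipartition C (A i) B S' → totalPerimeter S' < totalPerimeter S := by
  refine ⟨sq, P0, A0, S0, ⟨sq_compact, sq_convex, ⟨pt 1 6, three_ray.source⟩⟩, three_ray, ?_⟩
  intro i
  fin_cases i
  · exact conclude lf_b two_ray_b total_b
  · exact conclude lf_c two_ray_c total_c
  · exact conclude lf_a two_ray_a total_a

end Pool.Agent.Results.MP_d05d56_co.SquareCounterexample
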